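import Pool.Agent.Helper47.LB.Dens

/-!
The density of Helper47/LB/Dens.lean (theorem `exists_density2`, by helper47) once more, with the
vanishing of its coefficients of degree `1, ..., n` in the statement. The proof is the same.
-/

set_option autoImplicit false

open MeasureTheory Set Polynomial

namespace Pool.Agent.Helper86.LP

open Pool.Agent.Helper47.KP (wt Par den cst nrm PP)
open Pool.Agent.Helper47.KP (continuous_wt wt_nonneg wt_le_one integral_wt_pos cst_pos integral_den
  dens measurable_dens dens_of_gt dens_bounds integral_dens nrm_le integral_PP_den den_supp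
  natDegree_PP)
open Pool.Agent.Helper47.LB

theorem exists_density3 {A b : ℝ} (h : Par A b) (hb2 : b < 1 / 2) {β : ℝ} (hβ0 : 0 ≤ β)
    (hβ : 2 * β < 2 / (A ^ 2 - 1)) :
    ∃ C θ : ℝ, 0 < C ∧ 0 < θ ∧ θ < 1 ∧ ∀ (d n : ℕ) [NeZero d], 4 ≤ d → 1 ≤ n →
      (n : ℝ) ≤ β * ((d - 3 : ℕ) : ℝ) → C * (2 * n + 1) * θ ^ (d - 3) ≤ 1 →
      ∃ g : ℝ → ℝ, Measurable g ∧ (∀ t, 0 ≤ g t) ∧
        (∀ t, g t ≤ 1 + C * (2 * n + 1) * θ ^ (d - 3)) ∧
        (∀ t, 1 / 2 < t → g t = 0) ∧ (∀ t, |g t - 1| ≤ 1) ∧ ∫ t, g t ∂(den d) = 1 ∧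
        ∫ t, (g t - 1) ^ 2 ∂(den d) ≤ VV d ∧
        (∀ j, 1 ≤ j → |∫ t, g t * (PP d j).eval t ∂(den d)| ≤
          √(VV d / (Nat.choose (n + (d - 3)) n : ℝ))) ∧
        ∀ j, 1 ≤ j → j ≤ n → ∫ t, g t * (PP d j).eval t ∂(den d) = 0 := by
  obtain ⟨C, θ, hC, hθ0, hθ1, hsm⟩ := q_small h hb2 hβ0 hβ
  refine ⟨C, θ, hC, hθ0, hθ1, ?_⟩
  intro d n _ hd hn1 hn hr1
  have hd3 : 3 ≤ d := by omega
  have hb0 := h.b_pos
  have hb1 : b < 1 := by linarith
  have hVV := VV_pos hd
  set D := d - 3 with hD
  have hD1 : 1 ≤ D := by omega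
  have hw := continuous_wt D
  set r := C * (2 * n + 1) * θ ^ D with hr
  obtain ⟨q, hqn, hq⟩ := exists_q n D hb0 hb1
  obtain ⟨hq1, hq2⟩ := hsm D n q hD1 hn1 hn hqn hq
  -- the function `a`
  set a : ℝ → ℝ := fun t => q.eval (max (-b) (min b t)) with ha
  have hac : Continuous a := q.continuous.comp (by fun_prop)
  have har : ∀ t, |a t| ≤ r := by
    intro t
    apply hq2
    rw [abs_le]
    exact ⟨le_max_left _ _, max_le (by linarith) (min_le_left _ _)⟩
  have haq : ∀ t ∈ uIcc (-b) b, a t = q.eval t := by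
    intro t ht
    rw [uIcc_of_le (by linarith)] at ht
    simp only [ha]
    rw [min_eq_right ht.2, max_eq_right ht.1]
  have hb := dens_bounds hb2 hr1 har
  have hgm := measurable_dens b hac.measurable
  -- moments
  have hmom : ∀ f : ℝ[X], f.natDegree ≤ n →
      ∫ t, dens b a t * f.eval t ∂(den d) = ∫ t, f.eval t ∂(den d) := by
    intro f hf
    rw [integral_dens hb0 hb2 hac f.continuous, integral_den]
    have e1 : ∫ t in (-b)..b, a t * (f.eval t * wt (d - 3) t) =
        ∫ t in (1 / 2 : ℝ)..1, f.eval t * wt D t := by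
      rw [← hq f hf]
      apply intervalIntegral.integral_congr
      intro t ht
      simp only [haq t ht, ← hD]
    rw [e1]
    congr 1
    exact intervalIntegral.integral_add_adjacent_intervals
      ((f.continuous.mul hw).intervalIntegrable _ _) ((f.continuous.mul hw).intervalIntegrable _ _)
  -- variance
  have hvar : ∫ t, (dens b a t - 1) ^ 2 ∂(den d) ≤ VV d := by
    rw [integral_var hb0 hb2 hac, ← hD]
    have e1 : ∫ t in (-b)..b, a t ^ 2 * wt D t = ∫ t in (-b)..b, q.eval t ^ 2 * wt D t := by
      apply intervalIntegral.integral_congr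
      intro t ht
      simp only [haq t ht]
    rw [e1]
    have hv0 : 0 ≤ ∫ t in (1 / 2 : ℝ)..1, wt D t :=
      intervalIntegral.integral_nonneg (by norm_num) fun t _ => wt_nonneg D t
    have hCθ : C * θ ^ D ≤ 1 := by
      refine le_trans ?_ hr1
      have h1 : (1 : ℝ) ≤ 2 * n + 1 := by
        have : (0 : ℝ) ≤ n := Nat.cast_nonneg n
        linarith
      have h2 : 0 ≤ C * θ ^ D := by positivity
      calc C * θ ^ D = C * θ ^ D * 1 := by ring
        _ ≤ C * θ ^ D * (2 * n + 1) := mul_le_mul_of_nonneg_left h1 h2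
        _ = r := by rw [hr]; ring
    have e2 : ∫ t in (-b)..b, q.eval t ^ 2 * wt D t ≤ ∫ t in (1 / 2 : ℝ)..1, wt D t :=
      hq1.trans (by nlinarith)
    have e3 := tail_le D
    have e4 := cst_le hd
    have e5 := (cst_pos d).le
    rw [← hD] at e4
    calc cst d * ((∫ t in (1 / 2 : ℝ)..1, wt D t) + ∫ t in (-b)..b, q.eval t ^ 2 * wt D t)
        ≤ cst d * (√(3 / 4) ^ D) := mul_le_mul_of_nonneg_left (by linarith) e5
      _ ≤ √(2 * (D : ℝ)) * √(3 / 4) ^ D := mul_le_mul_of_nonneg_right e4 (by positivity)
      _ = VV d := rfl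
  refine ⟨dens b a, hgm, fun t => (hb t).1, fun t => (hb t).2.1,
    fun t ht => dens_of_gt hb2 a ht, fun t => (hb t).2.2, ?_, hvar, ?_, ?_⟩
  · have h1 := hmom 1 (by simp)
    simp only [eval_one, mul_one] at h1
    rw [h1, integral_den]
    simp only [one_mul]
    unfold cst
    exact inv_mul_cancel₀ (integral_wt_pos _).ne'
  · intro j hj
    by_cases hjn : j ≤ n
    · rw [hmom (PP d j) ((natDegree_PP j).trans hjn), integral_PP_den hd3 hj, abs_zero]
      exact Real.sqrt_nonneg _
    · push Not at hjn
      have hle := nrm_le hd3 (d := d) hjn.le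
      -- integrability
      obtain ⟨M, hM⟩ := (isCompact_Icc (a := (-1 : ℝ)) (b := 1)).image
        (PP d j).continuous |>.isBounded.exists_norm_le
      have hM' : ∀ t ∈ Icc (-1 : ℝ) 1, |(PP d j).eval t| ≤ M := fun t ht => hM _ ⟨t, ht, rfl⟩
      have hM0 : 0 ≤ M := (abs_nonneg _).trans (hM' 0 ⟨by norm_num, by norm_num⟩)
      have i1 : Integrable (fun t => (PP d j).eval t) (den d) := by
        refine Integrable.of_bound (PP d j).continuous.aestronglyMeasurable M ?_
        filter_upwards [den_supp] with t ht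
        exact hM' t ht
      have i2 : Integrable (fun t => dens b a t * (PP d j).eval t) (den d) := by
        refine Integrable.of_bound (hgm.mul (PP d j).continuous.measurable).aestronglyMeasurable
          (2 * M) ?_
        filter_upwards [den_supp] with t ht
        rw [norm_mul, Real.norm_eq_abs, Real.norm_eq_abs]
        apply mul_le_mul _ (hM' t ht) (abs_nonneg _) (by norm_num)
        rw [abs_of_nonneg (hb t).1]
        linarith [(hb t).2.1]
      have i3 : Integrable (fun t => (dens b a t - 1) * (PP d j).eval t) (den d) := by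
        have := i2.sub i1
        refine this.congr (Filter.Eventually.of_forall fun t => ?_)
        show dens b a t * (PP d j).eval t - (PP d j).eval t = _
        ring
      have i4 : Integrable (fun t => (PP d j).eval t ^ 2) (den d) := by
        refine Integrable.of_bound ((PP d j).continuous.pow 2).aestronglyMeasurable (M ^ 2) ?_
        filter_upwards [den_supp] with t ht
        rw [Real.norm_eq_abs, abs_of_nonneg (by positivity), ← sq_abs]
        exact pow_le_pow_left₀ (abs_nonneg _) (hM' t ht) 2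
      have i5 : Integrable (fun t => (dens b a t - 1) ^ 2) (den d) := by
        refine Integrable.of_bound ((hgm.sub_const 1).pow_const 2).aestronglyMeasurable 1 ?_
        refine Filter.Eventually.of_forall fun t => ?_
        rw [Real.norm_eq_abs, abs_of_nonneg (by positivity), ← sq_abs]
        exact pow_le_one₀ (abs_nonneg _) (hb t).2.2
      have e1 : ∫ t, dens b a t * (PP d j).eval t ∂(den d) =
          ∫ t, (dens b a t - 1) * (PP d j).eval t ∂(den d) := by
        have h1 : ∫ t, (dens b a t - 1) * (PP d j).eval t ∂(den d) =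
            ∫ t, dens b a t * (PP d j).eval t ∂(den d) - ∫ t, (PP d j).eval t ∂(den d) := by
          rw [← integral_sub i2 i1]
          congr 1; funext t; ring
        rw [h1, integral_PP_den hd3 hj, sub_zero]
      rw [e1]
      set W := ∫ t, (dens b a t - 1) * (PP d j).eval t ∂(den d) with hW
      set U := ∫ t, (dens b a t - 1) ^ 2 ∂(den d) with hU
      have hP : ∫ t, (PP d j).eval t ^ 2 ∂(den d) = nrm d j := by
        rw [integral_den]; rfl
      set l := W / VV d with hl
      have h0 : 0 ≤ ∫ t, (l * (dens b a t - 1) - (PP d j).eval t) ^ 2 ∂(den d) :=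
        integral_nonneg fun t => sq_nonneg _
      have h1 : ∫ t, (l * (dens b a t - 1) - (PP d j).eval t) ^ 2 ∂(den d) =
          l ^ 2 * U - 2 * l * W + nrm d j := by
        have i6 : Integrable (fun t => l ^ 2 * (dens b a t - 1) ^ 2 -
            2 * l * ((dens b a t - 1) * (PP d j).eval t)) (den d) :=
          (i5.const_mul _).sub (i3.const_mul _)
        rw [hU, hW, ← hP, ← integral_const_mul, ← integral_const_mul, ← integral_sub
          (i5.const_mul _) (i3.const_mul _), ← integral_add i6 i4]
        congr 1; funext t; ring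
      rw [h1] at h0
      have h2 : l ^ 2 * U ≤ l ^ 2 * VV d := mul_le_mul_of_nonneg_left hvar (sq_nonneg l)
      have h3 : l * VV d = W := by rw [hl]; exact div_mul_cancel₀ _ hVV.ne'
      have h4 : l * W ≤ nrm d j := by
        have : l ^ 2 * VV d = l * W := by rw [← h3]; ring
        linarith
      have h5 : W ^ 2 ≤ VV d * nrm d j := by
        have : W ^ 2 = VV d * (l * W) := by
          rw [← mul_assoc, mul_comm (VV d) l, h3]; ring
        rw [this]
        exact mul_le_mul_of_nonneg_left h4 hVV.le
      apply Real.abs_le_sqrt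
      refine h5.trans ?_
      calc VV d * nrm d j ≤ VV d * (1 / (Nat.choose (n + D) n : ℝ)) :=
            mul_le_mul_of_nonneg_left hle hVV.le
        _ = _ := by rw [mul_one_div]
  · intro j hj hjn
    rw [hmom (PP d j) ((natDegree_PP j).trans hjn), integral_PP_den hd3 hj]

end Pool.Agent.Helper86.LP
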