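import Pool.Agent.Helper86.LP.Laplace
import Pool.Agent.Helper47.KP.Op

/-!
The moments of `(1 - t²)(1 - u²)`, `t ~ den (D + 4)`, `u ~ den (D + 3)`, and the `L^s` norms of the
Gegenbauer polynomials.
-/

set_option autoImplicit false

open MeasureTheory Set Polynomial
open scoped RealInnerProductSpace ENNReal

namespace Pool.Agent.Helper86.LP

open Pool.Agent.Helper47.KP

lemma integral_den_complex (d : ℕ) (f : ℝ → ℂ) :
    ∫ t, f t ∂(den d) = ((cst d : ℝ) : ℂ) * ∫ t in (-1 : ℝ)..1, ((wt (d - 3) t : ℝ) : ℂ) * f t := by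
  unfold den
  rw [integral_withDensity_eq_integral_smul]
  · rw [intervalIntegral.integral_of_le (by norm_num), ← integral_const_mul]
    congr 1
    funext t
    rw [NNReal.smul_def, Real.coe_toNNReal _
      (mul_nonneg (cst_pos d).le (wt_nonneg _ _)), Complex.real_smul]
    push_cast
    ring
  · exact (continuous_const.mul (continuous_wt _)).measurable.real_toNNReal

lemma den_prob {d : ℕ} (hd : 3 ≤ d) : IsProbabilityMeasure (den d) := by
  have : NeZero d := ⟨by omega⟩
  obtain ⟨x0⟩ := exists_point (d := d)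
  rw [← map_inner hd x0]
  exact Measure.isProbabilityMeasure_map (continuous_inner_S _).measurable.aemeasurable

/-- Laplace's formula with the probability law -/
theorem laplace_den (D m : ℕ) {t : ℝ} (ht : t ∈ Icc (-1 : ℝ) 1) :
    (((PP (D + 4) m).eval t : ℝ) : ℂ) = ∫ u, AA t u ^ m ∂(den (D + 3)) := by
  have h := laplace D m ht
  have hc : ((cst (D + 3) : ℝ) : ℂ) * ((∫ u in (-1 : ℝ)..1, wt D u : ℝ) : ℂ) = 1 := by
    rw [← Complex.ofReal_mul]
    have : cst (D + 3) * (∫ u in (-1 : ℝ)..1, wt D u) = 1 := by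
      unfold cst
      rw [show D + 3 - 3 = D by omega]
      exact inv_mul_cancel₀ (integral_wt_pos D).ne'
    rw [this]
    norm_num
  rw [integral_den_complex, show D + 3 - 3 = D by omega]
  change _ = ((cst (D + 3) : ℝ) : ℂ) * LF D m t
  rw [← h]
  linear_combination (-(((PP (D + 4) m).eval t : ℝ) : ℂ)) * hc

lemma integrable_den {f : ℝ → ℝ} (hf : Continuous f) (d : ℕ) : Integrable f (den d) := by
  obtain ⟨C, hC⟩ := (isCompact_Icc (a := (-1 : ℝ)) (b := 1)).image hf
    |>.isBounded.exists_norm_le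
  refine Integrable.of_bound hf.aestronglyMeasurable C ?_
  filter_upwards [den_supp (d := d)] with t ht
  exact hC _ ⟨t, ht, rfl⟩

lemma integrable_den_complex {f : ℝ → ℂ} (hf : Continuous f) (d : ℕ) :
    Integrable f (den d) := by
  obtain ⟨C, hC⟩ := (isCompact_Icc (a := (-1 : ℝ)) (b := 1)).image hf
    |>.isBounded.exists_norm_le
  refine Integrable.of_bound hf.aestronglyMeasurable C ?_
  filter_upwards [den_supp (d := d)] with t ht
  exact hC _ ⟨t, ht, rfl⟩

/-- the pointwise bound from Laplace's formula and Jensen's inequality -/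
theorem abs_PP_pow_le (D : ℕ) {m s M : ℕ} (h : 2 * M ≤ m * s) {t : ℝ}
    (ht : t ∈ Icc (-1 : ℝ) 1) :
    |(PP (D + 4) m).eval t| ^ s ≤ ∫ u, (1 - (1 - t ^ 2) * (1 - u ^ 2)) ^ M ∂(den (D + 3)) := by
  have hprob : IsProbabilityMeasure (den (D + 3)) := den_prob (by omega)
  have hA := continuous_AA t
  have hAn : Continuous (fun u => ‖AA t u‖) := hA.norm
  have e1 : |(PP (D + 4) m).eval t| ≤ ∫ u, ‖AA t u‖ ^ m ∂(den (D + 3)) := by
    have h1 := laplace_den D m ht
    have h2 : ‖(((PP (D + 4) m).eval t : ℝ) : ℂ)‖ = |(PP (D + 4) m).eval t| := by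
      rw [Complex.norm_real, Real.norm_eq_abs]
    rw [← h2, h1]
    refine (norm_integral_le_integral_norm _).trans (le_of_eq ?_)
    congr 1; funext u
    rw [norm_pow]
  have e2 : (∫ u, ‖AA t u‖ ^ m ∂(den (D + 3))) ^ s ≤
      ∫ u, (‖AA t u‖ ^ m) ^ s ∂(den (D + 3)) :=
    (convexOn_pow s).map_integral_le (continuous_pow s).continuousOn isClosed_Ici
      (Filter.Eventually.of_forall fun u => pow_nonneg (norm_nonneg _) _)
      (integrable_den (hAn.pow m) _) (integrable_den ((hAn.pow m).pow s) _)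
  have e3 : ∫ u, (‖AA t u‖ ^ m) ^ s ∂(den (D + 3)) ≤
      ∫ u, (1 - (1 - t ^ 2) * (1 - u ^ 2)) ^ M ∂(den (D + 3)) := by
    apply integral_mono_ae (integrable_den ((hAn.pow m).pow s) _)
      (integrable_den (by fun_prop) _)
    filter_upwards [den_supp (d := D + 3)] with u hu
    rw [← norm_AA_sq ht u, ← pow_mul, ← pow_mul]
    exact pow_le_pow_of_le_one (norm_nonneg _) (norm_AA_le ht hu) h
  exact (pow_le_pow_left₀ (abs_nonneg _) e1 s).trans (e2.trans e3)

/-- the recursion of the integrals of the weights -/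
lemma Wrec (D : ℕ) : ((D : ℝ) + 3) * ∫ t in (-1 : ℝ)..1, wt (D + 2) t =
    ((D : ℝ) + 2) * ∫ t in (-1 : ℝ)..1, wt D t := by
  have h := intervalIntegral.integral_eq_sub_of_hasDerivAt_of_le (a := (-1 : ℝ)) (b := 1)
    (f := fun t => t * wt (D + 2) t)
    (f' := fun t => ((D : ℝ) + 3) * wt (D + 2) t - ((D : ℝ) + 2) * wt D t) (by norm_num)
    (continuous_id.mul (continuous_wt _)).continuousOn
    (by
      intro u hu
      have hpos : 0 < 1 - u ^ 2 := by nlinarith [hu.1, hu.2]
      have h1 : HasDerivAt (fun u : ℝ => 1 - u ^ 2) (-(2 * u)) u := by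
        have := (hasDerivAt_pow 2 u).const_sub 1
        simpa using this
      have hs : Real.sqrt (1 - u ^ 2) ≠ 0 := (Real.sqrt_pos.2 hpos).ne'
      have h2 : HasDerivAt (wt (D + 2)) (-(((D : ℝ) + 2) * (u * wt D u))) u := by
        have h3 := (h1.sqrt hpos.ne').pow (D + 2)
        refine h3.congr_deriv ?_
        unfold wt
        have e : D + 2 - 1 = D + 1 := by omega
        rw [e]
        push_cast
        have e4 : Real.sqrt (1 - u ^ 2) ^ (D + 1) =
          Real.sqrt (1 - u ^ 2) * Real.sqrt (1 - u ^ 2) ^ D := by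
          rw [pow_add]; ring
        rw [e4]
        field_simp
      have h4 := (hasDerivAt_id u).mul h2
      refine h4.congr_deriv ?_
      rw [wt_add_two D ⟨hu.1.le, hu.2.le⟩]
      simp only [id]
      ring)
    (by
      apply Continuous.intervalIntegrable
      exact (continuous_const.mul (continuous_wt _)).sub (continuous_const.mul (continuous_wt _)))
  have hz : ∀ u : ℝ, u ^ 2 = 1 → wt (D + 2) u = 0 := by
    intro u hu
    unfold wt
    rw [hu]
    simp
  rw [hz 1 (by norm_num), hz (-1) (by norm_num), intervalIntegral.integral_sub,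
    intervalIntegral.integral_const_mul, intervalIntegral.integral_const_mul] at h
  · linarith
  · exact (continuous_const.mul (continuous_wt _)).intervalIntegrable _ _
  · exact (continuous_const.mul (continuous_wt _)).intervalIntegrable _ _

/-- moments of `1 - t²` -/
noncomputable def mom (d k : ℕ) : ℝ := ∫ t, (1 - t ^ 2) ^ k ∂(den d)

lemma mom_eq (D k : ℕ) : mom (D + 3) k = cst (D + 3) * ∫ t in (-1 : ℝ)..1, wt (D + 2 * k) t := by
  unfold mom
  rw [integral_den, show D + 3 - 3 = D by omega]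
  congr 1
  apply intervalIntegral.integral_congr
  intro t ht
  rw [uIcc_of_le (by norm_num)] at ht
  exact (wt_add_two_mul D k ht).symm

lemma mom_zero (D : ℕ) : mom (D + 3) 0 = 1 := by
  have hprob : IsProbabilityMeasure (den (D + 3)) := den_prob (by omega)
  simp [mom]

lemma mom_succ (D k : ℕ) : ((D : ℝ) + 3 + 2 * k) * mom (D + 3) (k + 1) =
    ((D : ℝ) + 2 + 2 * k) * mom (D + 3) k := by
  have h := Wrec (D + 2 * k)
  rw [mom_eq, mom_eq, show D + 2 * (k + 1) = D + 2 * k + 2 by ring]
  push_cast at h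
  linear_combination cst (D + 3) * h

/-- the product of the moments -/
lemma mom_prod (D k : ℕ) : mom (D + 4) k * mom (D + 3) k = ((D : ℝ) + 2) / ((D : ℝ) + 2 + 2 * k) := by
  induction k with
  | zero =>
    have h1 : mom (D + 4) 0 = 1 := mom_zero (D + 1)
    rw [h1, mom_zero]
    have : ((D : ℝ) + 2) ≠ 0 := by positivity
    simp [this]
  | succ k ih =>
    have h1 := mom_succ (D + 1) k
    have h2 := mom_succ D k
    rw [show D + 1 + 3 = D + 4 by ring] at h1
    push_cast at h1 ⊢
    have p1 : (0 : ℝ) < (D : ℝ) + 2 + 2 * k := by positivity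
    have p2 : (0 : ℝ) < (D : ℝ) + 3 + 2 * k := by positivity
    have p3 : (0 : ℝ) < (D : ℝ) + 4 + 2 * k := by positivity
    have h3 : ((D : ℝ) + 4 + 2 * k) * (mom (D + 4) (k + 1) * mom (D + 3) (k + 1)) =
        ((D : ℝ) + 2 + 2 * k) * (mom (D + 4) k * mom (D + 3) k) := by
      apply mul_left_cancel₀ p2.ne'
      have h1' : ((D : ℝ) + 4 + 2 * k) * mom (D + 4) (k + 1) =
          ((D : ℝ) + 3 + 2 * k) * mom (D + 4) k := by linarith
      calc ((D : ℝ) + 3 + 2 * k) * (((D : ℝ) + 4 + 2 * k) *
            (mom (D + 4) (k + 1) * mom (D + 3) (k + 1)))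
          = (((D : ℝ) + 4 + 2 * k) * mom (D + 4) (k + 1)) *
            (((D : ℝ) + 3 + 2 * k) * mom (D + 3) (k + 1)) := by ring
        _ = _ := by rw [h1', h2]; ring
    rw [ih] at h3
    have h4 : ((D : ℝ) + 2 + 2 * k) * (((D : ℝ) + 2) / ((D : ℝ) + 2 + 2 * k)) = (D : ℝ) + 2 := by
      field_simp
    rw [h4] at h3
    rw [show (D : ℝ) + 2 + 2 * (k + 1) = (D : ℝ) + 4 + 2 * k by ring, eq_div_iff p3.ne']
    linarith

/-- the functional with the moments `a / (a + k)` -/
noncomputable def Lf (a : ℝ) (p : ℝ[X]) : ℝ := p.sum fun k c => c * (a / (a + k))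

lemma Lf_add (a : ℝ) (p q : ℝ[X]) : Lf a (p + q) = Lf a p + Lf a q := by
  unfold Lf
  exact Polynomial.sum_add_index p q _ (fun i => by simp) (fun i x y => by ring)

lemma Lf_monomial (a : ℝ) (k : ℕ) (c : ℝ) : Lf a (monomial k c) = c * (a / (a + k)) := by
  unfold Lf
  exact Polynomial.sum_monomial_index c _ (by simp)

lemma Lf_C_mul (a c : ℝ) (p : ℝ[X]) : Lf a (C c * p) = c * Lf a p := by
  induction p using Polynomial.induction_on' with
  | add p q hp hq => rw [mul_add, Lf_add, Lf_add, hp, hq]; ring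
  | monomial n b => rw [C_mul_monomial, Lf_monomial, Lf_monomial]; ring

lemma Lf_deriv {a : ℝ} (ha : 0 < a) (p : ℝ[X]) :
    Lf a (X * derivative p) = a * (p.eval 1 - Lf a p) := by
  induction p using Polynomial.induction_on' with
  | add p q hp hq =>
    rw [derivative_add, mul_add, Lf_add, Lf_add, hp, hq, eval_add]; ring
  | monomial n b =>
    rw [Lf_monomial, eval_monomial, one_pow, mul_one]
    rcases n with _ | n
    · have : X * derivative (monomial 0 b : ℝ[X]) = monomial 0 (0 : ℝ) := by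
        rw [monomial_zero_left]; simp
      rw [this, Lf_monomial]
      simp
      rw [div_self ha.ne']
      simp
    · rw [derivative_monomial, show n + 1 - 1 = n by omega, X_mul_monomial, Lf_monomial]
      have : (0 : ℝ) < a + (n + 1 : ℕ) := by positivity
      field_simp
      ring

/-- the Beta integrals -/
noncomputable def Bn (a : ℝ) (M : ℕ) : ℝ := Lf a ((1 - X) ^ M)

lemma Bn_zero {a : ℝ} (ha : 0 < a) : Bn a 0 = 1 := by
  unfold Bn
  rw [pow_zero, ← monomial_zero_one, Lf_monomial]
  simp [ha.ne']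

lemma Bn_succ {a : ℝ} (ha : 0 < a) (M : ℕ) :
    (a + (M + 1)) * Bn a (M + 1) = (M + 1) * Bn a M := by
  have h := Lf_deriv ha ((1 - X) ^ (M + 1))
  have h1 : X * derivative ((1 - X : ℝ[X]) ^ (M + 1)) =
      C ((M : ℝ) + 1) * (1 - X) ^ (M + 1) + C (-((M : ℝ) + 1)) * (1 - X) ^ M := by
    rw [derivative_pow]
    simp only [derivative_sub, derivative_one, derivative_X, Nat.add_sub_cancel]
    push_cast
    rw [C_add, C_neg, C_add, C_1]
    ring
  rw [h1, Lf_add, Lf_C_mul, Lf_C_mul] at h
  simp only [eval_pow, eval_sub, eval_one, eval_X, sub_self] at h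
  rw [zero_pow (by omega)] at h
  unfold Bn
  linarith

lemma Bn_nonneg {a : ℝ} (ha : 0 < a) (M : ℕ) : 0 ≤ Bn a M := by
  induction M with
  | zero => rw [Bn_zero ha]; norm_num
  | succ M ih =>
    have h := Bn_succ ha M
    have hp : 0 < a + (M + 1) := by positivity
    have h2 : 0 ≤ (a + (M + 1)) * Bn a (M + 1) := by rw [h]; positivity
    exact nonneg_of_mul_nonneg_right h2 hp

/-- the bound of the Beta integrals -/
theorem Bn_le {a : ℝ} (ha : 1 ≤ a) (M : ℕ) : Bn a M ≤ (1 + M / a) ^ (-a) := by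
  have ha0 : 0 < a := by linarith
  induction M with
  | zero => rw [Bn_zero ha0]; simp
  | succ M ih =>
    have h := Bn_succ ha0 M
    have hM : (0 : ℝ) ≤ M := Nat.cast_nonneg M
    have hp : 0 < a + (M + 1) := by positivity
    have h2 : Bn a (M + 1) = (M + 1) / (a + (M + 1)) * Bn a M := by
      field_simp
      linarith
    have hb : ((M : ℝ) + 1) / (a + (M + 1)) ≤ ((a + M) / (a + (M + 1))) ^ a := by
      have h3 := one_add_mul_self_le_rpow_one_add (s := -(1 / (a + (M + 1)))) (p := a)
        (by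
          rw [neg_le_neg_iff, div_le_one hp]
          linarith) ha
      have e1 : 1 + a * -(1 / (a + (M + 1))) = ((M : ℝ) + 1) / (a + (M + 1)) := by
        field_simp
        ring
      have e2 : 1 + -(1 / (a + (M + 1))) = (a + M) / (a + (M + 1)) := by
        field_simp
        ring
      rw [e1, e2] at h3
      exact h3
    have hnn : 0 ≤ ((M : ℝ) + 1) / (a + (M + 1)) := by positivity
    rw [h2]
    calc ((M : ℝ) + 1) / (a + (M + 1)) * Bn a M
        ≤ ((a + M) / (a + (M + 1))) ^ a * (1 + M / a) ^ (-a) :=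
          mul_le_mul hb ih (Bn_nonneg ha0 M) (by positivity)
      _ = (1 + ((M + 1 : ℕ) : ℝ) / a) ^ (-a) := by
          have q1 : (0 : ℝ) < (a + M) / a := by positivity
          have q2 : (0 : ℝ) < (a + (M + 1)) / a := by positivity
          have e3 : (a + M) / (a + (M + 1)) = ((a + (M + 1)) / a)⁻¹ * ((a + M) / a) := by
            field_simp
          have e4 : 1 + (M : ℝ) / a = (a + M) / a := by field_simp
          have e5 : 1 + ((M + 1 : ℕ) : ℝ) / a = (a + (M + 1)) / a := by
            push_cast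
            field_simp
          rw [e3, e4, e5, Real.mul_rpow (by positivity) q1.le, Real.rpow_neg q1.le,
            Real.inv_rpow q2.le, Real.rpow_neg q2.le]
          have q3 : 0 < ((a + M) / a) ^ a := Real.rpow_pos_of_pos q1 a
          field_simp

/-- the double integral in terms of the moments -/
lemma double_eq (D : ℕ) (p : ℝ[X]) :
    ∫ t, ∫ u, p.eval ((1 - t ^ 2) * (1 - u ^ 2)) ∂(den (D + 3)) ∂(den (D + 4)) =
      Lf (((D : ℝ) + 2) / 2) p := by
  have inner : ∀ (p : ℝ[X]), ∀ t : ℝ, ∫ u, p.eval ((1 - t ^ 2) * (1 - u ^ 2)) ∂(den (D + 3)) =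
      p.sum fun k c => c * ((1 - t ^ 2) ^ k * mom (D + 3) k) := by
    intro p t
    induction p using Polynomial.induction_on' with
    | add p q hp hq =>
      rw [Polynomial.sum_add_index p q _ (fun i => by simp) (fun i x y => by ring), ← hp, ← hq,
        ← integral_add]
      · congr 1; funext u; rw [eval_add]
      · exact integrable_den (p.continuous.comp (by fun_prop)) _
      · exact integrable_den (q.continuous.comp (by fun_prop)) _
    | monomial n b =>
      rw [Polynomial.sum_monomial_index b _ (by simp)]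
      unfold mom
      rw [← integral_const_mul, ← integral_const_mul]
      congr 1; funext u
      rw [eval_monomial, mul_pow]
  simp only [inner]
  have hc : ∀ p : ℝ[X], Continuous (fun t : ℝ =>
      p.sum fun k c => c * ((1 - t ^ 2) ^ k * mom (D + 3) k)) := by
    intro p
    unfold Polynomial.sum
    fun_prop
  induction p using Polynomial.induction_on' with
  | add p q hp hq =>
    rw [Lf_add, ← hp, ← hq, ← integral_add (integrable_den (hc p) _) (integrable_den (hc q) _)]
    congr 1; funext t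
    rw [Polynomial.sum_add_index p q _ (fun i => by simp) (fun i x y => by ring)]
  | monomial n b =>
    rw [Lf_monomial]
    have e1 : ∀ t : ℝ, ((monomial n b : ℝ[X]).sum fun k c =>
        c * ((1 - t ^ 2) ^ k * mom (D + 3) k)) = (b * mom (D + 3) n) * (1 - t ^ 2) ^ n := by
      intro t
      rw [Polynomial.sum_monomial_index b _ (by simp)]
      ring
    simp only [e1]
    rw [integral_const_mul]
    have h := mom_prod D n
    unfold mom at h ⊢
    have p1 : (0 : ℝ) < (D : ℝ) + 2 := by positivity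
    have p2 : (0 : ℝ) < (D : ℝ) + 2 + 2 * n := by positivity
    have e2 : ((D : ℝ) + 2) / 2 / (((D : ℝ) + 2) / 2 + n) = ((D : ℝ) + 2) / ((D : ℝ) + 2 + 2 * n) := by
      field_simp
    rw [e2, ← h]
    ring

/-- the `L^s` norms of the Gegenbauer polynomials -/
theorem integral_PP_pow_le (D : ℕ) {m s M : ℕ} (h : 2 * M ≤ m * s) :
    ∫ t, |(PP (D + 4) m).eval t| ^ s ∂(den (D + 4)) ≤
      (1 + M / (((D : ℝ) + 2) / 2)) ^ (-(((D : ℝ) + 2) / 2)) := by
  have h1 : ∫ t, |(PP (D + 4) m).eval t| ^ s ∂(den (D + 4)) ≤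
      ∫ t, ∫ u, (((1 - X) ^ M : ℝ[X])).eval ((1 - t ^ 2) * (1 - u ^ 2)) ∂(den (D + 3))
        ∂(den (D + 4)) := by
    apply integral_mono_ae
    · exact integrable_den (((PP (D + 4) m).continuous.abs).pow s) _
    · have e : (fun t : ℝ => ∫ u, (((1 - X) ^ M : ℝ[X])).eval ((1 - t ^ 2) * (1 - u ^ 2))
          ∂(den (D + 3))) = fun t : ℝ => ∫ u, (1 - (1 - t ^ 2) * (1 - u ^ 2)) ^ M ∂(den (D + 3)) := by
        funext t
        congr 1; funext u
        simp
      rw [e]
      have hprob : IsProbabilityMeasure (den (D + 3)) := den_prob (by omega)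
      have hm : StronglyMeasurable (fun p : ℝ × ℝ => (1 - (1 - p.1 ^ 2) * (1 - p.2 ^ 2)) ^ M) := by
        apply Continuous.stronglyMeasurable
        fun_prop
      refine Integrable.of_bound hm.integral_prod_right'.aestronglyMeasurable 1 ?_
      filter_upwards [den_supp (d := D + 4)] with t ht
      rw [Real.norm_eq_abs]
      have hb : ∀ u ∈ Icc (-1 : ℝ) 1, |(1 - (1 - t ^ 2) * (1 - u ^ 2)) ^ M| ≤ 1 := by
        intro u hu
        have a1 : 0 ≤ 1 - t ^ 2 := by nlinarith [ht.1, ht.2]
        have a2 : 0 ≤ 1 - u ^ 2 := by nlinarith [hu.1, hu.2]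
        have a3 : 1 - t ^ 2 ≤ 1 := by nlinarith [sq_nonneg t]
        have a4 : 1 - u ^ 2 ≤ 1 := by nlinarith [sq_nonneg u]
        have a5 : (1 - t ^ 2) * (1 - u ^ 2) ≤ 1 := by nlinarith
        rw [abs_of_nonneg (pow_nonneg (by linarith) _)]
        exact pow_le_one₀ (by linarith) (by nlinarith [mul_nonneg a1 a2])
      have h3 : ‖∫ u, (1 - (1 - t ^ 2) * (1 - u ^ 2)) ^ M ∂(den (D + 3))‖ ≤
          1 * (den (D + 3)).real univ := by
        apply norm_integral_le_of_norm_le_const
        filter_upwards [den_supp (d := D + 3)] with u hu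
        rw [Real.norm_eq_abs]
        exact hb u hu
      rw [Real.norm_eq_abs] at h3
      simpa using h3
    · filter_upwards [den_supp (d := D + 4)] with t ht
      refine (abs_PP_pow_le D h ht).trans (le_of_eq ?_)
      congr 1; funext u
      simp
  rw [double_eq] at h1
  refine h1.trans (Bn_le ?_ M)
  have : (0 : ℝ) ≤ D := Nat.cast_nonneg D
  linarith

end Pool.Agent.Helper86.LP
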