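import Pool.Agent.Helper86.LP.Beta
import Pool.Agent.Helper47.KP.Dens
import Pool.Agent.Helper47.LB.N1

/-!
The `L^s` norm of the convolution square of a zonal function without low coefficients.
-/

set_option autoImplicit false

open MeasureTheory Set Polynomial
open scoped RealInnerProductSpace ENNReal

namespace Pool.Agent.Helper86.LP

open Pool.Agent.Helper47.KP
open Pool.Agent.Helper47.LB (cs Bd_sq_h22)

/-- `L²` approximation by polynomials -/
lemma exists_poly_near2 {d : ℕ} (hd : 3 ≤ d) {h : ℝ → ℝ} (hm : Measurable h) (hb : ∀ t, |h t| ≤ 1)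
    {η : ℝ} (hη : 0 < η) : ∃ q : ℝ[X], ∫ t, (h t - q.eval t) ^ 2 ∂(den d) ≤ η := by
  have hprob := den_prob hd
  have hint : Integrable h (den d) := Integrable.of_bound hm.aestronglyMeasurable 1
    (Filter.Eventually.of_forall fun x => by rw [Real.norm_eq_abs]; exact hb x)
  obtain ⟨f, hf, hfi⟩ := hint.exists_boundedContinuous_integral_sub_le (ε := η / 8) (by positivity)
  set F : ℝ → ℝ := fun t => max (-1) (min 1 (f t)) with hF
  have hFc : Continuous F := by
    have := f.continuous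
    fun_prop
  set κ := min 1 (η / 4) with hκ
  have hκ0 : 0 < κ := lt_min one_pos (by positivity)
  obtain ⟨q, hq⟩ := exists_polynomial_near_of_continuousOn (-1) 1 F hFc.continuousOn κ hκ0
  refine ⟨q, ?_⟩
  have hpt : ∀ t ∈ Icc (-1 : ℝ) 1, (h t - q.eval t) ^ 2 ≤ 4 * ‖h t - f t‖ + η / 2 := by
    intro t ht
    have h1 := hb t
    rw [abs_le] at h1
    have h2 : |h t - F t| ≤ |h t - f t| := by
      simp only [hF]
      rcases le_total (f t) (-1) with h3 | h3
      · rw [min_eq_right (by linarith), max_eq_left h3, abs_of_nonneg (by linarith),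
          abs_of_nonneg (by linarith)]
        linarith
      · rcases le_total (f t) 1 with h4 | h4
        · rw [min_eq_right h4, max_eq_right h3]
        · rw [min_eq_left h4, max_eq_right (by norm_num), abs_of_nonpos (by linarith),
            abs_of_nonpos (by linarith)]
          linarith
    have h3 : |h t - F t| ≤ 2 := by
      have h4 : -1 ≤ F t := le_max_left _ _
      have h5 : F t ≤ 1 := max_le (by norm_num) (min_le_left _ _)
      rw [abs_le]
      constructor <;> linarith [h1.1, h1.2]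
    have h4 : (h t - F t) ^ 2 ≤ 2 * |h t - f t| := by
      rw [← sq_abs]
      nlinarith [abs_nonneg (h t - F t), abs_nonneg (h t - f t)]
    have h5 : |F t - q.eval t| ≤ κ := by
      rw [abs_sub_comm]; exact (hq t ht).le
    have h6 : (F t - q.eval t) ^ 2 ≤ η / 4 := by
      rw [← sq_abs]
      have h7 : κ ≤ 1 := min_le_left _ _
      have h8 : κ ≤ η / 4 := min_le_right _ _
      nlinarith [abs_nonneg (F t - q.eval t)]
    have h7 : (h t - q.eval t) ^ 2 ≤ 2 * (h t - F t) ^ 2 + 2 * (F t - q.eval t) ^ 2 := by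
      nlinarith [sq_nonneg ((h t - F t) - (F t - q.eval t))]
    rw [Real.norm_eq_abs]
    linarith
  have i0 : Integrable (fun t => 4 * ‖h t - f t‖) (den d) := (hint.sub hfi).norm.const_mul 4
  have i1 : Integrable (fun t => 4 * ‖h t - f t‖ + η / 2) (den d) :=
    i0.add (integrable_const _)
  have i2 : Integrable (fun t => (h t - q.eval t) ^ 2) (den d) := by
    refine i1.mono' ((hm.sub q.continuous.measurable).pow_const 2).aestronglyMeasurable ?_
    filter_upwards [den_supp (d := d)] with t ht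
    rw [Real.norm_eq_abs, abs_of_nonneg (sq_nonneg _)]
    exact hpt t ht
  have h1 : ∫ t, (h t - q.eval t) ^ 2 ∂(den d) ≤ ∫ t, (4 * ‖h t - f t‖ + η / 2) ∂(den d) := by
    apply integral_mono_ae i2 i1
    filter_upwards [den_supp (d := d)] with t ht
    exact hpt t ht
  rw [integral_add i0 (integrable_const _), integral_const_mul,
    integral_const] at h1
  simp at h1
  have h9 : ∫ t, |h t - f t| ∂(den d) ≤ η / 8 := hf
  linarith

/-- the high part of an expansion -/
noncomputable def hi (d n J : ℕ) (a : ℕ → ℝ) : ℝ[X] :=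
  ∑ j ∈ Finset.Ioc n J, C (a j) * PP d j

lemma PP_orth_den {d : ℕ} (hd : 3 ≤ d) {i j : ℕ} (hij : i ≠ j) :
    ∫ t, (PP d i).eval t * (PP d j).eval t ∂(den d) = 0 := by
  have : NeZero d := ⟨by omega⟩
  obtain ⟨x0⟩ := exists_point (d := d)
  have h := zon_orth hd hij x0
  unfold zon at h
  rw [← h, ← int_zonal_den hd x0 (f := fun t => (PP d i).eval t * (PP d j).eval t)
    ((PP d i).continuous.mul (PP d j).continuous).measurable]
  congr 1; funext z
  rw [eval_mul]

/-- approximation without low coefficients -/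
lemma exists_hi_near {d : ℕ} (hd : 3 ≤ d) {h : ℝ → ℝ} (hm : Measurable h) (hb : ∀ t, |h t| ≤ 1)
    {n : ℕ} (h0 : ∀ j ≤ n, ∫ t, h t * (PP d j).eval t ∂(den d) = 0)
    {η : ℝ} (hη : 0 < η) : ∃ (J : ℕ) (a : ℕ → ℝ),
      ∫ t, (h t - (hi d n J a).eval t) ^ 2 ∂(den d) ≤ η := by
  have hprob := den_prob hd
  obtain ⟨q, hq⟩ := exists_poly_near2 hd hm hb hη
  obtain ⟨J, a, ha⟩ := exists_expansion hd q
  refine ⟨J, a, ?_⟩
  set lo : ℝ[X] := ∑ j ∈ (Finset.range (J + 1)).filter (fun j => j ≤ n), C (a j) * PP d j with hlo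
  have hsplit : ∀ t, q.eval t = (hi d n J a).eval t + lo.eval t := by
    intro t
    rw [ha t, hi, hlo, eval_finsetSum, eval_finsetSum]
    rw [← Finset.sum_filter_add_sum_filter_not (Finset.range (J + 1)) (fun j => j ≤ n)]
    rw [add_comm]
    congr 1
    · apply Finset.sum_congr
      · ext j
        simp only [Finset.mem_filter, Finset.mem_range, Finset.mem_Ioc]
        omega
      · intro j _
        rw [eval_mul, eval_C]
    · apply Finset.sum_congr rfl
      intro j _
      rw [eval_mul, eval_C]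
  have ih : ∀ p : ℝ[X], Integrable (fun t => h t * p.eval t) (den d) := fun p =>
    (integrable_den p.continuous d).bdd_mul hm.aestronglyMeasurable
      (Filter.Eventually.of_forall fun x => by rw [Real.norm_eq_abs]; exact hb x)
  have ip : ∀ p r : ℝ[X], Integrable (fun t => p.eval t * r.eval t) (den d) := fun p r =>
    integrable_den (p.continuous.mul r.continuous) d
  -- orthogonality
  have o1 : ∫ t, h t * lo.eval t ∂(den d) = 0 := by
    have e : ∀ t, h t * lo.eval t = ∑ j ∈ (Finset.range (J + 1)).filter (fun j => j ≤ n),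
        a j * (h t * (PP d j).eval t) := by
      intro t
      rw [hlo, eval_finsetSum, Finset.mul_sum]
      apply Finset.sum_congr rfl
      intro j _
      rw [eval_mul, eval_C]
      ring
    simp only [e]
    rw [integral_finsetSum _ fun j _ => (ih (PP d j)).const_mul _]
    apply Finset.sum_eq_zero
    intro j hj
    rw [integral_const_mul, h0 j (Finset.mem_filter.1 hj).2, mul_zero]
  have o2 : ∫ t, (hi d n J a).eval t * lo.eval t ∂(den d) = 0 := by
    have e : ∀ t, (hi d n J a).eval t * lo.eval t =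
        ∑ i ∈ Finset.Ioc n J, ∑ j ∈ (Finset.range (J + 1)).filter (fun j => j ≤ n),
          (a i * a j) * ((PP d i).eval t * (PP d j).eval t) := by
      intro t
      rw [hlo, hi, eval_finsetSum, eval_finsetSum, Finset.sum_mul_sum]
      apply Finset.sum_congr rfl
      intro i _
      apply Finset.sum_congr rfl
      intro j _
      rw [eval_mul, eval_C, eval_mul, eval_C]
      ring
    simp only [e]
    rw [integral_finsetSum _ fun i _ => integrable_finsetSum _ fun j _ =>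
      (ip (PP d i) (PP d j)).const_mul _]
    apply Finset.sum_eq_zero
    intro i hi'
    rw [integral_finsetSum _ fun j _ => (ip (PP d i) (PP d j)).const_mul _]
    apply Finset.sum_eq_zero
    intro j hj
    rw [integral_const_mul, PP_orth_den hd, mul_zero]
    have h1 := (Finset.mem_Ioc.1 hi').1
    have h2 := (Finset.mem_filter.1 hj).2
    omega
  -- Pythagoras
  have i2 : Integrable (fun t => (h t - (hi d n J a).eval t) ^ 2) (den d) := by
    obtain ⟨C, hC⟩ := (isCompact_Icc (a := (-1 : ℝ)) (b := 1)).image (hi d n J a).continuous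
      |>.isBounded.exists_norm_le
    refine Integrable.of_bound
      ((hm.sub (hi d n J a).continuous.measurable).pow_const 2).aestronglyMeasurable
      ((1 + C) ^ 2) ?_
    filter_upwards [den_supp (d := d)] with t ht
    rw [Real.norm_eq_abs, abs_of_nonneg (sq_nonneg _), ← sq_abs]
    have h1 : |(hi d n J a).eval t| ≤ C := hC _ ⟨t, ht, rfl⟩
    have h2 : |h t - (hi d n J a).eval t| ≤ 1 + C := (abs_sub _ _).trans (add_le_add (hb t) h1)
    exact pow_le_pow_left₀ (abs_nonneg _) h2 2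
  have hpy : ∫ t, (h t - q.eval t) ^ 2 ∂(den d) =
      ∫ t, (h t - (hi d n J a).eval t) ^ 2 ∂(den d) + ∫ t, lo.eval t * lo.eval t ∂(den d) := by
    have e : ∀ t, (h t - q.eval t) ^ 2 = ((h t - (hi d n J a).eval t) ^ 2 +
        lo.eval t * lo.eval t) + (2 * ((hi d n J a).eval t * lo.eval t) -
          2 * (h t * lo.eval t)) := by
      intro t
      rw [hsplit]
      ring
    simp only [e]
    have j1 : Integrable (fun t => (h t - (hi d n J a).eval t) ^ 2 +
        lo.eval t * lo.eval t) (den d) := i2.add (ip lo lo)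
    have j2 : Integrable (fun t => 2 * ((hi d n J a).eval t * lo.eval t) -
        2 * (h t * lo.eval t)) (den d) :=
      ((ip (hi d n J a) lo).const_mul 2).sub ((ih lo).const_mul 2)
    rw [integral_add j1 j2, integral_add i2 (ip lo lo),
      integral_sub ((ip (hi d n J a) lo).const_mul 2) ((ih lo).const_mul 2), integral_const_mul,
      integral_const_mul, o1, o2]
    ring
  have hnn : 0 ≤ ∫ t, lo.eval t * lo.eval t ∂(den d) :=
    integral_nonneg fun t => mul_self_nonneg _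
  linarith

/-- the convolution of the high part -/
lemma conv_hi {d : ℕ} [NeZero d] (hd : 3 ≤ d) (n J : ℕ) (a : ℕ → ℝ) (x y : Sph d) :
    ∫ z : Sph d, (hi d n J a).eval ⟪(x : EE d), (z : EE d)⟫ *
      (hi d n J a).eval ⟪(y : EE d), (z : EE d)⟫ ∂(sig d) =
      ∑ j ∈ Finset.Ioc n J, a j ^ 2 * nrm d j * (PP d j).eval ⟪(x : EE d), (y : EE d)⟫ := by
  have ic : ∀ i j : ℕ, Integrable (fun z : Sph d => (PP d i).eval ⟪(x : EE d), (z : EE d)⟫ *
      (PP d j).eval ⟪(y : EE d), (z : EE d)⟫) (sig d) := fun i j => integrable_of_continuous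
    ((continuous_eval (PP d i) (x : EE d)).mul (continuous_eval (PP d j) (y : EE d)))
  have e : ∀ z : Sph d, (hi d n J a).eval ⟪(x : EE d), (z : EE d)⟫ *
      (hi d n J a).eval ⟪(y : EE d), (z : EE d)⟫ = ∑ i ∈ Finset.Ioc n J, ∑ j ∈ Finset.Ioc n J,
        (a i * a j) * ((PP d i).eval ⟪(x : EE d), (z : EE d)⟫ *
          (PP d j).eval ⟪(y : EE d), (z : EE d)⟫) := by
    intro z
    rw [hi, eval_finsetSum, eval_finsetSum, Finset.sum_mul_sum]
    apply Finset.sum_congr rfl
    intro i _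
    apply Finset.sum_congr rfl
    intro j _
    rw [eval_mul, eval_C, eval_mul, eval_C]
    ring
  simp only [e]
  rw [integral_finsetSum _ fun i _ => integrable_finsetSum _ fun j _ => (ic i j).const_mul _]
  apply Finset.sum_congr rfl
  intro i hi'
  rw [integral_finsetSum _ fun j _ => (ic i j).const_mul _, Finset.sum_eq_single i]
  · rw [integral_const_mul]
    have h1 := conv_eq hd i x y
    unfold conv at h1
    rw [h1]
    ring
  · intro j _ hji
    rw [integral_const_mul, PP_orth hd (Ne.symm hji) x y, mul_zero]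
  · intro h
    exact absurd hi' h

lemma pow_le_aux {x y B : ℝ} (hx : 0 ≤ x) (hxy : x ≤ y) (hyB : y ≤ B) (hB : 1 ≤ B) (s : ℕ) :
    y ^ s ≤ x ^ s + s * (y - x) * B ^ s := by
  have hy : 0 ≤ y := hx.trans hxy
  induction s with
  | zero => simp
  | succ s ih =>
    have h1 : x ^ s ≤ B ^ s := pow_le_pow_left₀ hx (hxy.trans hyB) s
    have h2 : B ^ s ≤ B ^ (s + 1) := pow_le_pow_right₀ hB (Nat.le_succ s)
    have h3 : 0 ≤ (s : ℝ) * (y - x) * B ^ s := by
      have : 0 ≤ y - x := by linarith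
      have hB0 : 0 ≤ B := by linarith
      positivity
    have h4 : 0 ≤ y - x := by linarith
    calc y ^ (s + 1) = y ^ s * y := pow_succ _ _
      _ ≤ (x ^ s + s * (y - x) * B ^ s) * y := mul_le_mul_of_nonneg_right ih hy
      _ = x ^ (s + 1) + x ^ s * (y - x) + s * (y - x) * B ^ s * y := by rw [pow_succ]; ring
      _ ≤ x ^ (s + 1) + B ^ (s + 1) * (y - x) + s * (y - x) * B ^ s * B := by
          have a1 : x ^ s * (y - x) ≤ B ^ (s + 1) * (y - x) :=
            mul_le_mul_of_nonneg_right (h1.trans h2) h4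
          have a2 : s * (y - x) * B ^ s * y ≤ s * (y - x) * B ^ s * B :=
            mul_le_mul_of_nonneg_left hyB h3
          linarith
      _ = x ^ (s + 1) + ((s + 1 : ℕ) : ℝ) * (y - x) * B ^ (s + 1) := by
          push_cast
          rw [pow_succ]
          ring

/-- Jensen for a finite combination -/
lemma jensen_sum {ι : Type} (S : Finset ι) (w : ι → ℝ) (p : ι → ℝ) (hw : ∀ i ∈ S, 0 ≤ w i)
    {V : ℝ} (hV : ∑ i ∈ S, w i ≤ V) {s : ℕ} (hs : 1 ≤ s) :
    |∑ i ∈ S, w i * p i| ^ s ≤ V ^ (s - 1) * ∑ i ∈ S, w i * |p i| ^ s := by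
  have hW0 : 0 ≤ ∑ i ∈ S, w i := Finset.sum_nonneg hw
  have hR0 : 0 ≤ ∑ i ∈ S, w i * |p i| ^ s :=
    Finset.sum_nonneg fun i hi => mul_nonneg (hw i hi) (pow_nonneg (abs_nonneg _) _)
  have h1 : |∑ i ∈ S, w i * p i| ≤ ∑ i ∈ S, w i * |p i| := by
    refine (Finset.abs_sum_le_sum_abs _ _).trans (le_of_eq ?_)
    apply Finset.sum_congr rfl
    intro i hi
    rw [abs_mul, abs_of_nonneg (hw i hi)]
  rcases hW0.eq_or_lt with h0 | h0
  · have hz : ∀ i ∈ S, w i = 0 := (Finset.sum_eq_zero_iff_of_nonneg hw).1 h0.symm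
    have e1 : ∑ i ∈ S, w i * p i = 0 := Finset.sum_eq_zero fun i hi => by rw [hz i hi, zero_mul]
    rw [e1, abs_zero, zero_pow (by omega)]
    have hV0 : 0 ≤ V := hW0.trans hV
    exact mul_nonneg (pow_nonneg hV0 _) hR0
  · set W := ∑ i ∈ S, w i with hW
    have h2 := Real.pow_arith_mean_le_arith_mean_pow S (fun i => w i / W) (fun i => |p i|)
      (fun i hi => div_nonneg (hw i hi) h0.le)
      (by rw [← Finset.sum_div]; exact div_self h0.ne') (fun i _ => abs_nonneg _) s
    have e1 : ∑ i ∈ S, w i / W * |p i| = (∑ i ∈ S, w i * |p i|) / W := by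
      rw [Finset.sum_div]
      exact Finset.sum_congr rfl fun i _ => by ring
    have e2 : ∑ i ∈ S, w i / W * |p i| ^ s = (∑ i ∈ S, w i * |p i| ^ s) / W := by
      rw [Finset.sum_div]
      exact Finset.sum_congr rfl fun i _ => by ring
    rw [e1, e2, div_pow, div_le_div_iff₀ (pow_pos h0 _) h0] at h2
    obtain ⟨k, rfl⟩ : ∃ k, s = k + 1 := ⟨s - 1, by omega⟩
    rw [show k + 1 - 1 = k by omega]
    rw [pow_succ W] at h2
    have h3 : (∑ i ∈ S, w i * |p i|) ^ (k + 1) ≤ W ^ k * ∑ i ∈ S, w i * |p i| ^ (k + 1) := by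
      apply le_of_mul_le_mul_right _ h0
      calc (∑ i ∈ S, w i * |p i|) ^ (k + 1) * W ≤
          (∑ i ∈ S, w i * |p i| ^ (k + 1)) * (W ^ k * W) := h2
        _ = W ^ k * (∑ i ∈ S, w i * |p i| ^ (k + 1)) * W := by ring
    calc |∑ i ∈ S, w i * p i| ^ (k + 1) ≤ (∑ i ∈ S, w i * |p i|) ^ (k + 1) :=
          pow_le_pow_left₀ (abs_nonneg _) h1 _
      _ ≤ W ^ k * ∑ i ∈ S, w i * |p i| ^ (k + 1) := h3
      _ ≤ V ^ k * ∑ i ∈ S, w i * |p i| ^ (k + 1) :=
          mul_le_mul_of_nonneg_right (pow_le_pow_left₀ h0.le hV k) hR0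

/-- the convolution square -/
noncomputable def phi (d : ℕ) (h : ℝ → ℝ) (x y : Sph d) : ℝ :=
  ∫ z : Sph d, h ⟪(x : EE d), (z : EE d)⟫ * h ⟪(y : EE d), (z : EE d)⟫ ∂(sig d)

/-- the bound of Beta type -/
noncomputable def QQ (D M : ℕ) : ℝ :=
  (1 + M / (((D : ℝ) + 2) / 2)) ^ (-(((D : ℝ) + 2) / 2))

lemma QQ_nonneg (D M : ℕ) : 0 ≤ QQ D M := by
  unfold QQ
  positivity

/-- the approximate form -/
lemma phi_pow_approx {D d : ℕ} (hdD : d = D + 4) [NeZero d] {h : ℝ → ℝ} (hm : Measurable h)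
    (hb : ∀ t, |h t| ≤ 1) {n : ℕ}
    (h0 : ∀ j ≤ n, ∫ t, h t * (PP d j).eval t ∂(den d) = 0)
    {v : ℝ} (hv0 : 0 ≤ v) (hv1 : v ≤ 1) (hv : ∫ t, h t ^ 2 ∂(den d) ≤ v) {s M : ℕ}
    (hs : 1 ≤ s) (hM : 2 * M ≤ (n + 1) * s) (x : Sph d) {η : ℝ} (hη : 0 < η)
    (hη1 : η ≤ 1) :
    ∫ y : Sph d, |phi d h x y| ^ s ∂(sig d) ≤
      (v + 2 * (√v * √η) + η) ^ s * QQ D M + s * (3 * √η) * 7 ^ s := by
  have hd : 3 ≤ d := by omega
  have hPP : ∀ m : ℕ, 2 * M ≤ m * s → ∫ t, |(PP d m).eval t| ^ s ∂(den d) ≤ QQ D M := by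
    intro m hm2
    subst hdD
    exact integral_PP_pow_le D hm2
  obtain ⟨J, a, ha⟩ := exists_hi_near hd hm hb h0 hη
  set q := hi d n J a with hq
  set V : ℝ := v + 2 * (√v * √η) + η with hV
  have sv1 : √v ≤ 1 := Real.sqrt_le_one.2 hv1
  have sη1 : √η ≤ 1 := Real.sqrt_le_one.2 hη1
  have sv0 : 0 ≤ √v := Real.sqrt_nonneg _
  have sη0 : 0 ≤ √η := Real.sqrt_nonneg _
  have hV0 : 0 ≤ V := by positivity
  have hV4 : V ≤ 4 := by
    have : √v * √η ≤ 1 := mul_le_one₀ sv1 sη0 sη1
    linarith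
  -- boundedness on the sphere
  have bh : ∀ x : Sph d, Bd (fun z : Sph d => h ⟪(x : EE d), (z : EE d)⟫) := fun x =>
    ⟨hm.comp (continuous_inner_S _).measurable, 1, fun z => hb _⟩
  have bp : ∀ (p : ℝ[X]) (x : Sph d), Bd (fun z : Sph d => p.eval ⟪(x : EE d), (z : EE d)⟫) := by
    intro p x
    obtain ⟨C, _, hC⟩ := exists_bound_eval (d := d) p
    exact ⟨(continuous_eval p (x : EE d)).measurable, C, fun z => hC x z⟩
  have be : ∀ x : Sph d, Bd (fun z : Sph d => h ⟪(x : EE d), (z : EE d)⟫ -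
      q.eval ⟪(x : EE d), (z : EE d)⟫) := by
    intro x
    have := (bh x).add ((Bd.const (-1)).mul (bp q x))
    simpa only [sub_eq_add_neg, neg_mul, one_mul] using this
  -- norms
  have nh : ∀ x : Sph d, ∫ z : Sph d, h ⟪(x : EE d), (z : EE d)⟫ ^ 2 ∂(sig d) ≤ v := by
    intro x
    rw [int_zonal_den hd x (f := fun t => h t ^ 2) (hm.pow_const 2)]
    exact hv
  have ne : ∀ x : Sph d, ∫ z : Sph d, (h ⟪(x : EE d), (z : EE d)⟫ -
      q.eval ⟪(x : EE d), (z : EE d)⟫) ^ 2 ∂(sig d) ≤ η := by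
    intro x
    rw [int_zonal_den hd x (f := fun t => (h t - q.eval t) ^ 2)
      ((hm.sub q.continuous.measurable).pow_const 2)]
    exact ha
  have nq : ∀ x : Sph d, ∫ z : Sph d, q.eval ⟪(x : EE d), (z : EE d)⟫ ^ 2 ∂(sig d) ≤ V := by
    intro x
    have e : ∀ z : Sph d, q.eval ⟪(x : EE d), (z : EE d)⟫ ^ 2 =
        (h ⟪(x : EE d), (z : EE d)⟫ ^ 2 + (-2) * (h ⟪(x : EE d), (z : EE d)⟫ *
          (h ⟪(x : EE d), (z : EE d)⟫ - q.eval ⟪(x : EE d), (z : EE d)⟫))) +
          (h ⟪(x : EE d), (z : EE d)⟫ - q.eval ⟪(x : EE d), (z : EE d)⟫) ^ 2 := by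
      intro z; ring
    simp only [e]
    have j1 := (Bd_sq_h22 (bh x)).integrable (sig d)
    have j2 := (((bh x).mul (be x)).integrable (sig d)).const_mul (-2)
    have j3 := (Bd_sq_h22 (be x)).integrable (sig d)
    have j12 : Integrable (fun z : Sph d => h ⟪(x : EE d), (z : EE d)⟫ ^ 2 +
        (-2) * (h ⟪(x : EE d), (z : EE d)⟫ * (h ⟪(x : EE d), (z : EE d)⟫ -
          q.eval ⟪(x : EE d), (z : EE d)⟫))) (sig d) := j1.add j2
    rw [integral_add j12 j3, integral_add j1 j2, integral_const_mul]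
    have k1 := cs (sig d) (bh x) (be x)
    have k2 : √(∫ z : Sph d, h ⟪(x : EE d), (z : EE d)⟫ ^ 2 ∂(sig d)) *
        √(∫ z : Sph d, (h ⟪(x : EE d), (z : EE d)⟫ -
          q.eval ⟪(x : EE d), (z : EE d)⟫) ^ 2 ∂(sig d)) ≤ √v * √η :=
      mul_le_mul (Real.sqrt_le_sqrt (nh x)) (Real.sqrt_le_sqrt (ne x)) (Real.sqrt_nonneg _) sv0
    have k3 := (abs_le.1 (k1.trans k2)).1
    have k4 := nh x
    have k5 := ne x
    rw [hV]
    linarith
  -- the convolution of `q`
  set P : Sph d → Sph d → ℝ := fun x y =>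
    ∑ j ∈ Finset.Ioc n J, (a j ^ 2 * nrm d j) * (PP d j).eval ⟪(x : EE d), (y : EE d)⟫ with hP
  have hPq : ∀ x y : Sph d, ∫ z : Sph d, q.eval ⟪(x : EE d), (z : EE d)⟫ *
      q.eval ⟪(y : EE d), (z : EE d)⟫ ∂(sig d) = P x y := fun x y => conv_hi hd n J a x y
  have hw : ∀ j ∈ Finset.Ioc n J, 0 ≤ a j ^ 2 * nrm d j := fun j _ =>
    mul_nonneg (sq_nonneg _) (nrm_pos hd j).le
  have hwV : ∑ j ∈ Finset.Ioc n J, a j ^ 2 * nrm d j ≤ V := by
    have h1 := hPq x x
    have h2 : P x x = ∑ j ∈ Finset.Ioc n J, a j ^ 2 * nrm d j := by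
      simp only [hP]
      apply Finset.sum_congr rfl
      intro j _
      rw [inner_self_S, PP_eval_one hd, mul_one]
    rw [← h2, ← h1]
    refine le_trans (le_of_eq ?_) (nq x)
    congr 1; funext z; ring
  -- the difference
  have hdiff : ∀ y : Sph d, |phi d h x y - P x y| ≤ 3 * √η := by
    intro y
    have e : phi d h x y - P x y = ∫ z : Sph d, ((h ⟪(x : EE d), (z : EE d)⟫ -
        q.eval ⟪(x : EE d), (z : EE d)⟫) * h ⟪(y : EE d), (z : EE d)⟫ +
        q.eval ⟪(x : EE d), (z : EE d)⟫ * (h ⟪(y : EE d), (z : EE d)⟫ -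
          q.eval ⟪(y : EE d), (z : EE d)⟫)) ∂(sig d) := by
      rw [← hPq, phi, ← integral_sub (((bh x).mul (bh y)).integrable _)
        (((bp q x).mul (bp q y)).integrable _)]
      congr 1; funext z; ring
    rw [e, integral_add (((be x).mul (bh y)).integrable _) (((bp q x).mul (be y)).integrable _)]
    have k1 := cs (sig d) (be x) (bh y)
    have k2 := cs (sig d) (bp q x) (be y)
    have k3 : √(∫ z : Sph d, (h ⟪(x : EE d), (z : EE d)⟫ -
          q.eval ⟪(x : EE d), (z : EE d)⟫) ^ 2 ∂(sig d)) *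
        √(∫ z : Sph d, h ⟪(y : EE d), (z : EE d)⟫ ^ 2 ∂(sig d)) ≤ √η * 1 :=
      mul_le_mul (Real.sqrt_le_sqrt (ne x)) ((Real.sqrt_le_sqrt (nh y)).trans sv1)
        (Real.sqrt_nonneg _) sη0
    have k4 : √(∫ z : Sph d, q.eval ⟪(x : EE d), (z : EE d)⟫ ^ 2 ∂(sig d)) *
        √(∫ z : Sph d, (h ⟪(y : EE d), (z : EE d)⟫ -
          q.eval ⟪(y : EE d), (z : EE d)⟫) ^ 2 ∂(sig d)) ≤ 2 * √η := by
      apply mul_le_mul _ (Real.sqrt_le_sqrt (ne y)) (Real.sqrt_nonneg _) (by norm_num)
      refine (Real.sqrt_le_sqrt ((nq x).trans hV4)).trans (le_of_eq ?_)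
      rw [show (4 : ℝ) = 2 ^ 2 by norm_num]
      exact Real.sqrt_sq (by norm_num)
    refine (abs_add_le _ _).trans ?_
    linarith
  -- the sup bound
  have hPV : ∀ y : Sph d, |P x y| ≤ V := by
    intro y
    have := jensen_sum (Finset.Ioc n J) (fun j => a j ^ 2 * nrm d j)
      (fun j => (PP d j).eval ⟪(x : EE d), (y : EE d)⟫) hw hwV (s := 1) le_rfl
    simp only [pow_one, Nat.sub_self, pow_zero, one_mul] at this
    refine this.trans (le_trans ?_ hwV)
    apply Finset.sum_le_sum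
    intro j hj
    exact mul_le_of_le_one_right (hw j hj) (abs_PP_le hd j x y)
  -- integrals
  have bP : Bd (fun y : Sph d => P x y) := by
    refine ⟨?_, V, hPV⟩
    apply Continuous.measurable
    simp only [hP]
    apply continuous_finsetSum
    intro j _
    exact continuous_const.mul (continuous_eval (PP d j) (x : EE d))
  have bphi : Bd (fun y : Sph d => phi d h x y) := by
    have b1 : Bd (fun p : Sph d × Sph d => h ⟪(x : EE d), (p.2 : EE d)⟫ *
        h ⟪(p.1 : EE d), (p.2 : EE d)⟫) :=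
      ((bh x).comp measurable_snd).mul ⟨hm.comp continuous_inner2.measurable, 1, fun p => hb _⟩
    exact b1.integral (sig d)
  have babs : ∀ {f : Sph d → ℝ}, Bd f → Bd (fun y => |f y| ^ s) := by
    intro f hf
    obtain ⟨C, hC⟩ := hf.bd
    refine ⟨(hf.meas.abs).pow_const s, C ^ s, fun y => ?_⟩
    rw [abs_pow, abs_abs]
    exact pow_le_pow_left₀ (abs_nonneg _) (hC y) s
  have hpt : ∀ y : Sph d, |phi d h x y| ^ s ≤ |P x y| ^ s + s * (3 * √η) * 7 ^ s := by
    intro y
    have h1 : |phi d h x y| ≤ |P x y| + 3 * √η := by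
      have := abs_add_le (phi d h x y - P x y) (P x y)
      rw [sub_add_cancel] at this
      linarith [hdiff y]
    have h2 := pow_le_aux (x := |P x y|) (y := |P x y| + 3 * √η) (B := 7) (abs_nonneg _)
      (by linarith) (by linarith [hPV y]) (by norm_num) s
    rw [add_sub_cancel_left] at h2
    exact (pow_le_pow_left₀ (abs_nonneg _) h1 s).trans h2
  have hint1 : ∫ y : Sph d, |P x y| ^ s ∂(sig d) ≤ V ^ s * QQ D M := by
    have h1 : ∀ y : Sph d, |P x y| ^ s ≤ V ^ (s - 1) * ∑ j ∈ Finset.Ioc n J,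
        (a j ^ 2 * nrm d j) * |(PP d j).eval ⟪(x : EE d), (y : EE d)⟫| ^ s := fun y =>
      jensen_sum _ _ _ hw hwV hs
    have hPj : ∀ j, Integrable (fun y : Sph d =>
        (a j ^ 2 * nrm d j) * |(PP d j).eval ⟪(x : EE d), (y : EE d)⟫| ^ s) (sig d) := fun j =>
      ((babs (bp (PP d j) x)).integrable (sig d)).const_mul _
    have h2 : ∫ y : Sph d, |P x y| ^ s ∂(sig d) ≤ ∫ y : Sph d, V ^ (s - 1) *
        ∑ j ∈ Finset.Ioc n J, (a j ^ 2 * nrm d j) *
          |(PP d j).eval ⟪(x : EE d), (y : EE d)⟫| ^ s ∂(sig d) := by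
      apply integral_mono ((babs bP).integrable _)
      · exact (integrable_finsetSum _ fun j _ => hPj j).const_mul _
      · exact h1
    refine h2.trans ?_
    rw [integral_const_mul, integral_finsetSum _ fun j _ => hPj j]
    obtain ⟨k, rfl⟩ : ∃ k, s = k + 1 := ⟨s - 1, by omega⟩
    rw [show k + 1 - 1 = k by omega, pow_succ V, mul_assoc]
    apply mul_le_mul_of_nonneg_left _ (pow_nonneg hV0 k)
    calc ∑ j ∈ Finset.Ioc n J, ∫ y : Sph d, (a j ^ 2 * nrm d j) *
          |(PP d j).eval ⟪(x : EE d), (y : EE d)⟫| ^ (k + 1) ∂(sig d)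
        ≤ ∑ j ∈ Finset.Ioc n J, (a j ^ 2 * nrm d j) * QQ D M := by
          apply Finset.sum_le_sum
          intro j hj
          rw [integral_const_mul]
          apply mul_le_mul_of_nonneg_left _ (hw j hj)
          rw [int_zonal_den hd x (f := fun t => |(PP d j).eval t| ^ (k + 1))
            (((PP d j).continuous.abs).pow (k + 1)).measurable]
          apply hPP
          refine hM.trans ?_
          have := (Finset.mem_Ioc.1 hj).1
          exact Nat.mul_le_mul_right _ this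
      _ = (∑ j ∈ Finset.Ioc n J, (a j ^ 2 * nrm d j)) * QQ D M := by rw [Finset.sum_mul]
      _ ≤ V * QQ D M := mul_le_mul_of_nonneg_right hwV (QQ_nonneg D M)
  calc ∫ y : Sph d, |phi d h x y| ^ s ∂(sig d)
      ≤ ∫ y : Sph d, (|P x y| ^ s + s * (3 * √η) * 7 ^ s) ∂(sig d) := by
        apply integral_mono ((babs bphi).integrable _)
        · exact ((babs bP).integrable _).add (integrable_const _)
        · exact hpt
    _ = ∫ y : Sph d, |P x y| ^ s ∂(sig d) + s * (3 * √η) * 7 ^ s := by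
        rw [integral_add ((babs bP).integrable _) (integrable_const _), integral_const]
        simp
    _ ≤ _ := by linarith

/-- the `L^s` norm of the convolution square -/
theorem phi_pow_le {D d : ℕ} (hdD : d = D + 4) [NeZero d] {h : ℝ → ℝ} (hm : Measurable h)
    (hb : ∀ t, |h t| ≤ 1) {n : ℕ}
    (h0 : ∀ j ≤ n, ∫ t, h t * (PP d j).eval t ∂(den d) = 0)
    {v : ℝ} (hv0 : 0 ≤ v) (hv1 : v ≤ 1) (hv : ∫ t, h t ^ 2 ∂(den d) ≤ v) {s M : ℕ}
    (hs : 1 ≤ s) (hM : 2 * M ≤ (n + 1) * s) (x : Sph d) :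
    ∫ y : Sph d, |phi d h x y| ^ s ∂(sig d) ≤ v ^ s * QQ D M := by
  have hc : Continuous (fun η : ℝ => (v + 2 * (√v * √η) + η) ^ s * QQ D M +
      s * (3 * √η) * 7 ^ s) := by fun_prop
  have ht : Filter.Tendsto (fun η : ℝ => (v + 2 * (√v * √η) + η) ^ s * QQ D M +
      s * (3 * √η) * 7 ^ s) (nhdsWithin 0 (Ioi 0)) (nhds (v ^ s * QQ D M)) := by
    have := hc.tendsto 0
    simp only [Real.sqrt_zero, mul_zero, add_zero, zero_mul] at this
    exact this.mono_left nhdsWithin_le_nhds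
  refine ge_of_tendsto ht ?_
  filter_upwards [Ioc_mem_nhdsGT (show (0 : ℝ) < 1 from one_pos)] with η hη
  exact phi_pow_approx hdD hm hb h0 hv0 hv1 hv hs hM x hη.1 hη.2

end Pool.Agent.Helper86.LP
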