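import Pool.Agent.Helper86.LP.Conv
import Pool.Agent.Helper47.LB.Dens

/-!
The numbers `DD d s`: the gain of a star with `s` leaves.
-/

set_option autoImplicit false

open Set

namespace Pool.Agent.Helper86.LP

open Pool.Agent.Helper47.LB (VV VV_pos)

/-- the gain of a star with `s` leaves -/
noncomputable def DD (d s : ℕ) : ℝ :=
  if s = 0 then 1 else
    min ((2 : ℝ) ^ (-(0.096 : ℝ) * d)) ((1 + (s : ℝ) / 40) ^ (-(0.249 : ℝ) * d))

lemma DD_zero (d : ℕ) : DD d 0 = 1 := by simp [DD]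

lemma DD_pos (d s : ℕ) : 0 < DD d s := by
  unfold DD
  split_ifs
  · norm_num
  · apply lt_min
    · positivity
    · have : (0 : ℝ) < 1 + (s : ℝ) / 40 := by positivity
      exact Real.rpow_pos_of_pos this _

lemma DD_nonneg (d s : ℕ) : 0 ≤ DD d s := (DD_pos d s).le

lemma DD_le_one (d s : ℕ) : DD d s ≤ 1 := by
  unfold DD
  split_ifs
  · norm_num
  · refine (min_le_left _ _).trans ?_
    apply Real.rpow_le_one_of_one_le_of_nonpos (by norm_num)
    have : (0 : ℝ) ≤ d := Nat.cast_nonneg d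
    nlinarith

lemma DD_le_left {d s : ℕ} (hs : 1 ≤ s) : DD d s ≤ (2 : ℝ) ^ (-(0.096 : ℝ) * d) := by
  unfold DD
  rw [if_neg (by omega)]
  exact min_le_left _ _

lemma DD_le_right {d s : ℕ} (hs : 1 ≤ s) : DD d s ≤ (1 + (s : ℝ) / 40) ^ (-(0.249 : ℝ) * d) := by
  unfold DD
  rw [if_neg (by omega)]
  exact min_le_right _ _

lemma DD_mul_le (d a b : ℕ) : DD d a * DD d b ≤ DD d (a + b) := by
  rcases Nat.eq_zero_or_pos a with rfl | ha
  · rw [DD_zero, one_mul, zero_add]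
  rcases Nat.eq_zero_or_pos b with rfl | hb
  · rw [DD_zero, mul_one, add_zero]
  have hd : (0 : ℝ) ≤ d := Nat.cast_nonneg d
  have ha0 : (0 : ℝ) ≤ a := Nat.cast_nonneg a
  have hb0 : (0 : ℝ) ≤ b := Nat.cast_nonneg b
  conv_rhs => unfold DD
  rw [if_neg (by omega)]
  apply le_min
  · calc DD d a * DD d b ≤ (2 : ℝ) ^ (-(0.096 : ℝ) * d) * 1 :=
          mul_le_mul (DD_le_left ha) (DD_le_one d b) (DD_nonneg d b) (by positivity)
      _ = _ := mul_one _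
  · calc DD d a * DD d b ≤ (1 + (a : ℝ) / 40) ^ (-(0.249 : ℝ) * d) *
          (1 + (b : ℝ) / 40) ^ (-(0.249 : ℝ) * d) :=
          mul_le_mul (DD_le_right ha) (DD_le_right hb) (DD_nonneg d b) (by positivity)
      _ = ((1 + (a : ℝ) / 40) * (1 + (b : ℝ) / 40)) ^ (-(0.249 : ℝ) * d) := by
          rw [Real.mul_rpow (by positivity) (by positivity)]
      _ ≤ (1 + ((a + b : ℕ) : ℝ) / 40) ^ (-(0.249 : ℝ) * d) := by
          apply Real.rpow_le_rpow_of_nonpos (by positivity)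
          · push_cast
            nlinarith [mul_nonneg ha0 hb0]
          · nlinarith

/-- for few leaves the first bound is the smaller one -/
lemma DD_small {d s : ℕ} (hs : 1 ≤ s) (hs2 : s ≤ 10) :
    DD d s = (2 : ℝ) ^ (-(0.096 : ℝ) * d) := by
  unfold DD
  rw [if_neg (by omega), min_eq_left]
  have hd : (0 : ℝ) ≤ d := Nat.cast_nonneg d
  have hs3 : (s : ℝ) ≤ 10 := by exact_mod_cast hs2
  have h1 : (1 + (s : ℝ) / 40) ≤ 5 / 4 := by linarith
  have h2 : ((5 : ℝ) / 4) ^ (-(0.249 : ℝ) * d) ≤ (1 + (s : ℝ) / 40) ^ (-(0.249 : ℝ) * d) := by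
    apply Real.rpow_le_rpow_of_nonpos (by positivity) h1
    nlinarith
  refine le_trans ?_ h2
  -- `(5/4)^0.249 ≤ 2^0.096`, that is `(5/4)^249 ≤ 2^96`
  have h3 : ((5 : ℝ) / 4) ^ (0.249 : ℝ) ≤ (2 : ℝ) ^ (0.096 : ℝ) := by
    have h4 : ((5 : ℝ) / 4) ^ (249 : ℕ) ≤ (2 : ℝ) ^ (96 : ℕ) := by norm_num
    have h5 := Real.rpow_le_rpow (by positivity) h4 (show (0 : ℝ) ≤ 1 / 1000 by norm_num)
    rw [← Real.rpow_natCast, ← Real.rpow_natCast, ← Real.rpow_mul (by norm_num),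
      ← Real.rpow_mul (by norm_num)] at h5
    norm_num at h5 ⊢
    exact h5
  rw [neg_mul, neg_mul, Real.rpow_neg (by norm_num), Real.rpow_neg (by norm_num),
    Real.rpow_mul (by norm_num), Real.rpow_mul (by norm_num)]
  apply inv_anti₀ (by positivity)
  exact Real.rpow_le_rpow (by positivity) h3 hd

/-- for many leaves the bound of Beta type is small enough -/
lemma QQ_small {D d s M : ℕ} (hdD : d = D + 4) (hd : 500 ≤ d) (hs : 11 ≤ s)
    (hM : ((d - 3) / 13 + 1) * s ≤ 2 * M + 1) :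
    QQ D M ≤ VV d * ((1 + (s : ℝ) / 40) ^ (-(0.249 : ℝ) * d)) ^ 2 := by
  have hd' : (500 : ℝ) ≤ d := by exact_mod_cast hd
  have hs' : (11 : ℝ) ≤ s := by exact_mod_cast hs
  have hD : (D : ℝ) + 2 = d - 2 := by rw [hdD]; push_cast; ring
  set x : ℝ := 1 + (s : ℝ) / 40 with hx
  have hx1 : 1 ≤ x := by rw [hx]; linarith
  have hx0 : 0 < x := by linarith
  -- the base
  have h1 : ((d : ℝ) - 2) / 13 * s ≤ 2 * M + 1 := by
    have h2 : (d : ℝ) - 2 ≤ 13 * (((d - 3) / 13 : ℕ) + 1 : ℝ) := by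
      have : d ≤ 13 * ((d - 3) / 13 + 1) + 2 := by omega
      have h3 : (d : ℝ) ≤ 13 * (((d - 3) / 13 : ℕ) + 1 : ℝ) + 2 := by exact_mod_cast this
      linarith
    have h4 : ((((d - 3) / 13 : ℕ) : ℝ) + 1) * s ≤ 2 * M + 1 := by exact_mod_cast hM
    nlinarith
  have hbase : 1.4 * x ≤ 1 + M / (((D : ℝ) + 2) / 2) := by
    rw [hD]
    have hpos : (0 : ℝ) < (d - 2) / 2 := by linarith
    have h2 : 1 + (M : ℝ) / (((d : ℝ) - 2) / 2) = (((d : ℝ) - 2) / 2 + M) / (((d : ℝ) - 2) / 2) := by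
      rw [add_div, div_self hpos.ne']
    rw [h2, le_div_iff₀ hpos, hx]
    nlinarith
  have hb0 : (0 : ℝ) < 1.4 * x := by positivity
  -- the bound of `QQ`
  have hQ : QQ D M ≤ (1.4 * x) ^ (-(((d : ℝ) - 2) / 2)) := by
    unfold QQ
    rw [hD] at hbase ⊢
    apply Real.rpow_le_rpow_of_nonpos hb0 hbase
    linarith
  -- the bound of `VV`
  have hV : ((3 : ℝ) / 4) ^ ((d : ℝ) / 2) ≤ VV d := by
    unfold VV
    have e1 : √(3 / 4) ^ (d - 3) ≥ √(3 / 4) ^ d :=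
      pow_le_pow_of_le_one (Real.sqrt_nonneg _) (Real.sqrt_le_one.2 (by norm_num)) (by omega)
    have e2 : ((3 : ℝ) / 4) ^ ((d : ℝ) / 2) = √(3 / 4) ^ d := by
      rw [Real.sqrt_eq_rpow, ← Real.rpow_natCast, ← Real.rpow_mul (by norm_num)]
      congr 1; ring
    have e3 : 1 ≤ √(2 * ((d - 3 : ℕ) : ℝ)) := by
      rw [Real.one_le_sqrt]
      have : (1 : ℝ) ≤ ((d - 3 : ℕ) : ℝ) := by exact_mod_cast (by omega : 1 ≤ d - 3)
      linarith
    have e4 : 0 ≤ √(3 / 4) ^ (d - 3) := pow_nonneg (Real.sqrt_nonneg _) _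
    rw [e2]
    calc √(3 / 4) ^ d ≤ 1 * √(3 / 4) ^ (d - 3) := by rw [one_mul]; exact e1
      _ ≤ _ := mul_le_mul_of_nonneg_right e3 e4
  -- combination
  have e5 : (x ^ (-(0.249 : ℝ) * d)) ^ 2 = x ^ (-(0.498 : ℝ) * d) := by
    rw [← Real.rpow_natCast, ← Real.rpow_mul hx0.le]
    congr 1
    push_cast
    ring
  rw [e5]
  refine hQ.trans (le_trans ?_ (mul_le_mul_of_nonneg_right hV (by positivity)))
  rw [Real.mul_rpow (by norm_num) hx0.le]
  apply mul_le_mul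
  · -- `1.4^(-(d-2)/2) ≤ (3/4)^(d/2)`
    have e6 : (1.4 : ℝ) ^ (-(((d : ℝ) - 2) / 2)) = 1.4 * (1.4 : ℝ) ^ (-((d : ℝ) / 2)) := by
      have : -(((d : ℝ) - 2) / 2) = 1 + -((d : ℝ) / 2) := by ring
      rw [this, Real.rpow_add (by norm_num), Real.rpow_one]
    have e7 : (1.4 : ℝ) ≤ (1.05 : ℝ) ^ ((d : ℝ) / 2) := by
      have h3 : (1.05 : ℝ) ^ ((7 : ℕ) : ℝ) ≤ (1.05 : ℝ) ^ ((d : ℝ) / 2) := by
        apply Real.rpow_le_rpow_of_exponent_le (by norm_num)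
        push_cast
        linarith
      refine le_trans ?_ h3
      rw [Real.rpow_natCast]
      norm_num
    have e8 : (1.05 : ℝ) ^ ((d : ℝ) / 2) = (1.4 : ℝ) ^ ((d : ℝ) / 2) * ((3 : ℝ) / 4) ^ ((d : ℝ) / 2) := by
      rw [← Real.mul_rpow (by norm_num) (by norm_num)]
      norm_num
    rw [e6, Real.rpow_neg (by norm_num)]
    have e9 : 0 < (1.4 : ℝ) ^ ((d : ℝ) / 2) := by positivity
    rw [← div_eq_mul_inv, div_le_iff₀ e9, mul_comm (((3 : ℝ) / 4) ^ ((d : ℝ) / 2)), ← e8]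
    exact e7
  · apply Real.rpow_le_rpow_of_exponent_le hx1
    linarith
  · positivity
  · positivity

end Pool.Agent.Helper86.LP
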