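import Pool.Agent.Helper86.LP.Star
import Pool.Agent.Helper85.LP.Defs

/-!
Block B1 of the project in the form of its stub file: the kernel on the sphere with its star
constants.
-/

set_option autoImplicit false

open MeasureTheory Finset
open scoped RealInnerProductSpace

namespace Pool.Agent.Helper86.LP

open Pool.Agent.Helper47.KP (Bd pim sig Sph EE den PP Par)
open Pool.Agent.Helper47.LB
open Pool.Agent.Helper85.LP (KerD)

lemma DD_eq (d s : ℕ) : Pool.Agent.Helper85.LP.DD d s = DD d s := rfl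

theorem exists_kernel : ∃ C θ : ℝ, 0 < C ∧ 0 < θ ∧ θ < 1 ∧ ∃ d₀ : ℕ, ∀ d : ℕ, d₀ ≤ d →
    ∃ (g : ℝ → ℝ) (ε : ℝ), (∀ s, 1 / 2 < s → g s = 0) ∧
      KerD (sig d) (fun x y : Sph d => g ⟪(x : EE d), (y : EE d)⟫) (1 + C * d * θ ^ d) (VV d) ε
        (Pool.Agent.Helper85.LP.DD d) := by
  obtain ⟨c, hc, d₀, h⟩ := sphere_kernel
  refine ⟨1, (2 : ℝ) ^ (-c), one_pos, by positivity,
    Real.rpow_lt_one_of_one_lt_of_neg (by norm_num) (by linarith), max d₀ 1, fun d hd => ?_⟩
  have hd1 : 1 ≤ d := (le_max_right _ _).trans hd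
  have : NeZero d := ⟨by omega⟩
  obtain ⟨g, ε, -, hgz, hk, hs⟩ := h d ((le_max_left _ _).trans hd)
  have hd1' : (1 : ℝ) ≤ d := by exact_mod_cast hd1
  have hG : (1 : ℝ) + 2 ^ (-c * d) ≤ 1 + 1 * d * ((2 : ℝ) ^ (-c)) ^ d := by
    have e : ((2 : ℝ) ^ (-c)) ^ d = 2 ^ (-c * d) := by
      rw [← Real.rpow_natCast, ← Real.rpow_mul (by norm_num)]
    rw [e, one_mul]
    have h0 : (0 : ℝ) < 2 ^ (-c * d) := by positivity
    nlinarith
  refine ⟨g, ε, hgz, ?_⟩
  exact {
    ker := {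
      meas := hk.meas
      symm := hk.symm
      nonneg := hk.nonneg
      le := fun x y => (hk.le x y).trans hG
      one_le := hk.one_le.trans hG
      abs_sub := hk.abs_sub
      var := hk.var
      v0 := hk.v0
      v1 := hk.v1
      ε0 := hk.ε0
      op := hk.op }
    star := hs
    D0 := DD_zero d
    D_nonneg := DD_nonneg d
    D_le := DD_le_one d
    D_mul := DD_mul_le d }

end Pool.Agent.Helper86.LP
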