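import Pool.Agent.Helper47.KP.Geg
import Pool.Agent.Helper47.KP.Law

/-!
Laplace's integral formula for the Gegenbauer polynomials `PP d m` of `S^(d-1)`, `d = D + 4`:
`P_m(t) = E (t + i √(1 - t²) u)^m`, `u` with the law `den (D + 3)`.
-/

set_option autoImplicit false

open MeasureTheory Set Polynomial
open scoped RealInnerProductSpace ENNReal

namespace Pool.Agent.Helper86.LP

open Pool.Agent.Helper47.KP

/-- the integrand of Laplace's formula -/
noncomputable def AA (t u : ℝ) : ℂ := (t : ℂ) + Complex.I * ((√(1 - t ^ 2) * u : ℝ) : ℂ)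

lemma continuous_AA (t : ℝ) : Continuous (AA t) := by
  unfold AA; fun_prop

lemma continuous_AA2 : Continuous (fun p : ℝ × ℝ => AA p.1 p.2) := by
  unfold AA; fun_prop

lemma AA_sq {t u : ℝ} (ht : t ∈ Icc (-1 : ℝ) 1) :
    AA t u ^ 2 = 2 * t * AA t u - 1 + ((1 - t ^ 2 : ℝ) : ℂ) * ((1 - u ^ 2 : ℝ) : ℂ) := by
  have h0 : 0 ≤ 1 - t ^ 2 := by nlinarith [ht.1, ht.2]
  have h1 : ((√(1 - t ^ 2) : ℝ) : ℂ) ^ 2 = ((1 - t ^ 2 : ℝ) : ℂ) := by
    rw [← Complex.ofReal_pow, Real.sq_sqrt h0]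
  have h2 : (Complex.I : ℂ) ^ 2 = -1 := Complex.I_sq
  unfold AA
  push_cast at h1 ⊢
  linear_combination (-(u : ℂ) ^ 2) * h1 + ((√(1 - t ^ 2) : ℝ) : ℂ) ^ 2 * (u : ℂ) ^ 2 * h2

lemma norm_AA_sq {t : ℝ} (ht : t ∈ Icc (-1 : ℝ) 1) (u : ℝ) :
    ‖AA t u‖ ^ 2 = 1 - (1 - t ^ 2) * (1 - u ^ 2) := by
  have h0 : 0 ≤ 1 - t ^ 2 := by nlinarith [ht.1, ht.2]
  have h1 : √(1 - t ^ 2) ^ 2 = 1 - t ^ 2 := Real.sq_sqrt h0
  rw [Complex.sq_norm, Complex.normSq_apply]
  have e1 : (AA t u).re = t := by simp [AA]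
  have e2 : (AA t u).im = √(1 - t ^ 2) * u := by simp [AA]
  rw [e1, e2]
  linear_combination u ^ 2 * h1

lemma norm_AA_le {t u : ℝ} (ht : t ∈ Icc (-1 : ℝ) 1) (hu : u ∈ Icc (-1 : ℝ) 1) : ‖AA t u‖ ≤ 1 := by
  have h0 : 0 ≤ 1 - t ^ 2 := by nlinarith [ht.1, ht.2]
  have h1 : 0 ≤ 1 - u ^ 2 := by nlinarith [hu.1, hu.2]
  have h2 := norm_AA_sq ht u
  have h3 : ‖AA t u‖ ^ 2 ≤ 1 := by rw [h2]; nlinarith [mul_nonneg h0 h1]
  exact (sq_le_one_iff₀ (norm_nonneg _)).1 h3

lemma wt_add_two (D : ℕ) {u : ℝ} (hu : u ∈ Icc (-1 : ℝ) 1) :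
    wt (D + 2) u = (1 - u ^ 2) * wt D u := by
  have h0 : 0 ≤ 1 - u ^ 2 := by nlinarith [hu.1, hu.2]
  unfold wt
  rw [pow_add, Real.sq_sqrt h0]
  ring

lemma wt_add_two_mul (D k : ℕ) {u : ℝ} (hu : u ∈ Icc (-1 : ℝ) 1) :
    wt (D + 2 * k) u = (1 - u ^ 2) ^ k * wt D u := by
  have h0 : 0 ≤ 1 - u ^ 2 := by nlinarith [hu.1, hu.2]
  unfold wt
  rw [pow_add, pow_mul, Real.sq_sqrt h0]
  ring

/-- integration by parts in `u` -/
lemma ibp (D m : ℕ) (t : ℝ) :
    (m : ℂ) * (Complex.I * ((√(1 - t ^ 2) : ℝ) : ℂ)) *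
        ∫ u in (-1 : ℝ)..1, ((wt (D + 2) u : ℝ) : ℂ) * AA t u ^ (m - 1) =
      ((D : ℂ) + 2) * ∫ u in (-1 : ℝ)..1, (u : ℂ) * ((wt D u : ℝ) : ℂ) * AA t u ^ m := by
  have hw : Continuous (fun u : ℝ => ((wt D u : ℝ) : ℂ)) :=
    Complex.continuous_ofReal.comp (continuous_wt D)
  have hw2 : Continuous (fun u : ℝ => ((wt (D + 2) u : ℝ) : ℂ)) :=
    Complex.continuous_ofReal.comp (continuous_wt (D + 2))
  have hA := continuous_AA t
  have hf' : Continuous (fun u : ℝ => -(((D : ℂ) + 2) * ((u : ℂ) * ((wt D u : ℝ) : ℂ) *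
      AA t u ^ m)) + (m : ℂ) * (Complex.I * ((√(1 - t ^ 2) : ℝ) : ℂ)) *
        (((wt (D + 2) u : ℝ) : ℂ) * AA t u ^ (m - 1))) := by
    fun_prop
  have h := intervalIntegral.integral_eq_sub_of_hasDerivAt_of_le (a := (-1 : ℝ)) (b := 1)
    (f := fun u : ℝ => ((wt (D + 2) u : ℝ) : ℂ) * AA t u ^ m)
    (f' := fun u : ℝ => -(((D : ℂ) + 2) * ((u : ℂ) * ((wt D u : ℝ) : ℂ) * AA t u ^ m)) +
      (m : ℂ) * (Complex.I * ((√(1 - t ^ 2) : ℝ) : ℂ)) *
        (((wt (D + 2) u : ℝ) : ℂ) * AA t u ^ (m - 1))) (by norm_num)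
    (hw2.mul (hA.pow m)).continuousOn
    (by
      intro u hu
      have hpos : 0 < 1 - u ^ 2 := by nlinarith [hu.1, hu.2]
      have h1 : HasDerivAt (fun u : ℝ => 1 - u ^ 2) (-(2 * u)) u := by
        have := (hasDerivAt_pow 2 u).const_sub 1
        simpa using this
      have hs : Real.sqrt (1 - u ^ 2) ≠ 0 := (Real.sqrt_pos.2 hpos).ne'
      have h2 : HasDerivAt (wt (D + 2)) (-(((D : ℝ) + 2) * (u * wt D u))) u := by
        have h3 := (h1.sqrt hpos.ne').pow (D + 2)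
        refine h3.congr_deriv ?_
        unfold wt
        have e : D + 2 - 1 = D + 1 := by omega
        rw [e]
        push_cast
        have e4 : Real.sqrt (1 - u ^ 2) ^ (D + 1) =
          Real.sqrt (1 - u ^ 2) * Real.sqrt (1 - u ^ 2) ^ D := by
          rw [pow_add]; ring
        rw [e4]
        field_simp
      have h4 : HasDerivAt (AA t) (Complex.I * ((√(1 - t ^ 2) : ℝ) : ℂ)) u := by
        have h5 : HasDerivAt (fun u : ℝ => ((√(1 - t ^ 2) * u : ℝ) : ℂ))
            ((√(1 - t ^ 2) : ℝ) : ℂ) u := by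
          have h6 : HasDerivAt (fun u : ℝ => √(1 - t ^ 2) * u) (√(1 - t ^ 2)) u := by
            simpa using (hasDerivAt_id u).const_mul (√(1 - t ^ 2))
          exact h6.ofReal_comp
        exact (h5.const_mul Complex.I).const_add (t : ℂ)
      have h7 := (h2.ofReal_comp).mul (h4.pow m)
      refine h7.congr_deriv ?_
      simp only [Pi.pow_apply]
      push_cast
      ring)
    (hf'.intervalIntegrable _ _)
  have hz : ∀ u : ℝ, u ^ 2 = 1 → wt (D + 2) u = 0 := by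
    intro u hu
    unfold wt
    rw [hu]
    simp
  rw [hz 1 (by norm_num), hz (-1) (by norm_num)] at h
  rw [intervalIntegral.integral_add, intervalIntegral.integral_neg,
    intervalIntegral.integral_const_mul, intervalIntegral.integral_const_mul] at h
  · simp only [Complex.ofReal_zero, zero_mul, sub_zero] at h
    linear_combination h
  · apply Continuous.intervalIntegrable
    fun_prop
  · apply Continuous.intervalIntegrable
    fun_prop

/-- the unnormalised Laplace integral -/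
noncomputable def LF (D m : ℕ) (t : ℝ) : ℂ := ∫ u in (-1 : ℝ)..1, ((wt D u : ℝ) : ℂ) * AA t u ^ m

lemma LF_zero (D : ℕ) (t : ℝ) : LF D 0 t = ((∫ u in (-1 : ℝ)..1, wt D u : ℝ) : ℂ) := by
  unfold LF
  simp only [pow_zero, mul_one]
  exact intervalIntegral.integral_ofReal

lemma LF_one (D : ℕ) (t : ℝ) : LF D 1 t = t * LF D 0 t := by
  have h := ibp D 0 t
  simp only [Nat.cast_zero, zero_mul, pow_zero, mul_one] at h
  have hD : ((D : ℂ) + 2) ≠ 0 := by
    have : ((D : ℂ) + 2) = ((D + 2 : ℕ) : ℂ) := by push_cast; ring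
    rw [this]
    exact_mod_cast (by omega : D + 2 ≠ 0)
  have h2 : ∫ u in (-1 : ℝ)..1, (u : ℂ) * ((wt D u : ℝ) : ℂ) = 0 := by
    rcases mul_eq_zero.1 h.symm with h3 | h3
    · exact absurd h3 hD
    · exact h3
  have hw : Continuous (fun u : ℝ => ((wt D u : ℝ) : ℂ)) :=
    Complex.continuous_ofReal.comp (continuous_wt D)
  unfold LF
  simp only [pow_zero, mul_one, pow_one]
  have e : ∀ u : ℝ, ((wt D u : ℝ) : ℂ) * AA t u = (t : ℂ) * ((wt D u : ℝ) : ℂ) +
      (Complex.I * ((√(1 - t ^ 2) : ℝ) : ℂ)) * ((u : ℂ) * ((wt D u : ℝ) : ℂ)) := by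
    intro u
    unfold AA
    push_cast
    ring
  simp only [e]
  rw [intervalIntegral.integral_add, intervalIntegral.integral_const_mul,
    intervalIntegral.integral_const_mul, h2, mul_zero, add_zero]
  · apply Continuous.intervalIntegrable
    fun_prop
  · apply Continuous.intervalIntegrable
    fun_prop

lemma LF_rec (D m : ℕ) {t : ℝ} (ht : t ∈ Icc (-1 : ℝ) 1) :
    ((m : ℂ) + D + 3) * LF D (m + 2) t =
      (2 * (m : ℂ) + D + 4) * (t * LF D (m + 1) t) - ((m : ℂ) + 1) * LF D m t := by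
  have hw : Continuous (fun u : ℝ => ((wt D u : ℝ) : ℂ)) :=
    Complex.continuous_ofReal.comp (continuous_wt D)
  have hw2 : Continuous (fun u : ℝ => ((wt (D + 2) u : ℝ) : ℂ)) :=
    Complex.continuous_ofReal.comp (continuous_wt (D + 2))
  have hA := continuous_AA t
  have h0 : 0 ≤ 1 - t ^ 2 := by nlinarith [ht.1, ht.2]
  have hs2 : ((√(1 - t ^ 2) : ℝ) : ℂ) ^ 2 = ((1 - t ^ 2 : ℝ) : ℂ) := by
    rw [← Complex.ofReal_pow, Real.sq_sqrt h0]
  set J : ℂ := ∫ u in (-1 : ℝ)..1, ((wt (D + 2) u : ℝ) : ℂ) * AA t u ^ m with hJ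
  -- (1)
  have h1 : LF D (m + 2) t = 2 * t * LF D (m + 1) t - LF D m t + ((1 - t ^ 2 : ℝ) : ℂ) * J := by
    have e1 : LF D (m + 2) t = ∫ u in (-1 : ℝ)..1,
        ((2 * t * (((wt D u : ℝ) : ℂ) * AA t u ^ (m + 1)) - ((wt D u : ℝ) : ℂ) * AA t u ^ m) +
          ((1 - t ^ 2 : ℝ) : ℂ) * (((wt (D + 2) u : ℝ) : ℂ) * AA t u ^ m)) := by
      unfold LF
      apply intervalIntegral.integral_congr
      intro u hu
      rw [uIcc_of_le (by norm_num)] at hu
      simp only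
      rw [wt_add_two D hu]
      have h2 := AA_sq (t := t) (u := u) ht
      have h3 : AA t u ^ (m + 2) = AA t u ^ m * AA t u ^ 2 := pow_add _ _ _
      rw [h3, h2, pow_succ]
      push_cast
      ring
    rw [e1, intervalIntegral.integral_add, intervalIntegral.integral_sub,
      intervalIntegral.integral_const_mul, intervalIntegral.integral_const_mul]
    · rfl
    · apply Continuous.intervalIntegrable
      fun_prop
    · apply Continuous.intervalIntegrable
      fun_prop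
    · apply Continuous.intervalIntegrable
      fun_prop
    · apply Continuous.intervalIntegrable
      fun_prop
  -- (2)
  have h2 : ((m : ℂ) + 1) * (((1 - t ^ 2 : ℝ) : ℂ) * J) =
      -(((D : ℂ) + 2) * (LF D (m + 2) t - t * LF D (m + 1) t)) := by
    have h3 := ibp D (m + 1) t
    rw [show m + 1 - 1 = m by omega, ← hJ] at h3
    have e2 : LF D (m + 2) t - t * LF D (m + 1) t =
        (Complex.I * ((√(1 - t ^ 2) : ℝ) : ℂ)) *
          ∫ u in (-1 : ℝ)..1, (u : ℂ) * ((wt D u : ℝ) : ℂ) * AA t u ^ (m + 1) := by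
      unfold LF
      rw [← intervalIntegral.integral_const_mul, ← intervalIntegral.integral_const_mul,
        ← intervalIntegral.integral_sub]
      · apply intervalIntegral.integral_congr
        intro u _
        simp only
        have h4 : AA t u ^ (m + 2) = AA t u ^ (m + 1) * AA t u := pow_succ _ _
        have h5 : AA t u = (t : ℂ) + Complex.I * ((√(1 - t ^ 2) * u : ℝ) : ℂ) := rfl
        rw [h4]
        nth_rewrite 2 [h5]
        push_cast
        ring
      · apply Continuous.intervalIntegrable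
        fun_prop
      · apply Continuous.intervalIntegrable
        fun_prop
    rw [e2]
    have hI : (Complex.I : ℂ) ^ 2 = -1 := Complex.I_sq
    push_cast at h3 hs2 ⊢
    set S : ℂ := ((√(1 - t ^ 2) : ℝ) : ℂ) with hS
    linear_combination (-(Complex.I * S)) * h3 - ((m : ℂ) + 1) * J * hs2 +
      ((m : ℂ) + 1) * S ^ 2 * J * hI
  rw [h1] at h2 ⊢
  linear_combination h2

/-- Laplace's formula -/
theorem laplace (D m : ℕ) {t : ℝ} (ht : t ∈ Icc (-1 : ℝ) 1) :
    (((PP (D + 4) m).eval t : ℝ) : ℂ) * ((∫ u in (-1 : ℝ)..1, wt D u : ℝ) : ℂ) = LF D m t := by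
  have main : ∀ m : ℕ,
      (((PP (D + 4) m).eval t : ℝ) : ℂ) * ((∫ u in (-1 : ℝ)..1, wt D u : ℝ) : ℂ) = LF D m t ∧
      (((PP (D + 4) (m + 1)).eval t : ℝ) : ℂ) * ((∫ u in (-1 : ℝ)..1, wt D u : ℝ) : ℂ) =
        LF D (m + 1) t := by
    intro m
    induction m with
    | zero =>
      constructor
      · rw [PP_zero, LF_zero]; simp
      · rw [PP_one, LF_one, LF_zero]; simp
    | succ m ih =>
      refine ⟨ih.2, ?_⟩
      have h := PP_rec (d := D + 4) (by omega) m t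
      have h2 : ((m : ℂ) + D + 3) * (((PP (D + 4) (m + 2)).eval t : ℝ) : ℂ) =
          (2 * (m : ℂ) + D + 4) * (t * (((PP (D + 4) (m + 1)).eval t : ℝ) : ℂ)) -
            ((m : ℂ) + 1) * (((PP (D + 4) m).eval t : ℝ) : ℂ) := by
        have h3 := congrArg (fun x : ℝ => (x : ℂ)) h
        push_cast at h3
        linear_combination h3
      have hne : ((m : ℂ) + D + 3) ≠ 0 := by
        have : ((m : ℂ) + D + 3) = ((m + D + 3 : ℕ) : ℂ) := by push_cast; ring
        rw [this]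
        exact_mod_cast (by omega : m + D + 3 ≠ 0)
      apply mul_left_cancel₀ hne
      rw [LF_rec D m ht, ← ih.1, ← ih.2]
      linear_combination ((∫ u in (-1 : ℝ)..1, wt D u : ℝ) : ℂ) * h2
  exact (main m).1

end Pool.Agent.Helper86.LP
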