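import Pool.Agent.Helper86.LP.StarNB
import Pool.Agent.Helper86.LP.Dens3
import Pool.Agent.Helper86.LP.DDn
import Pool.Agent.Helper47.LB.Star
import Pool.Agent.Helper47.LB.Op
import Pool.Agent.Helper47.LB.Num1
import Pool.Agent.Helper47.LB.Num2
import Pool.Agent.Helper47.LB.Num3

/-!
The kernel on the sphere and the norms of its stars.
-/

set_option autoImplicit false

open MeasureTheory Finset
open scoped RealInnerProductSpace

namespace Pool.Agent.Helper86.LP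

open Pool.Agent.Helper47.KP (Bd pim sig Sph EE den PP Par PP_zero integral_PP_den)
open Pool.Agent.Helper47.LB

/-- the second bound of the star kernel -/
lemma star_new {D d : ℕ} (hdD : d = D + 4) [NeZero d] (hd : 500 ≤ d) {g : ℝ → ℝ}
    (hgm : Measurable g) (hgs : ∀ t, |g t - 1| ≤ 1) (hgI : ∫ t, g t ∂(den d) = 1)
    (hgv : ∫ t, (g t - 1) ^ 2 ∂(den d) ≤ VV d) (hV1 : VV d ≤ 1)
    (hg0 : ∀ j, 1 ≤ j → j ≤ (d - 3) / 13 → ∫ t, g t * (PP d j).eval t ∂(den d) = 0)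
    {s : ℕ} (hs : 11 ≤ s) :
    NB (pis (sig d) (Fin s)) (sig d)
      (fun a y => ∏ i, (g ⟪(a i : EE d), (y : EE d)⟫ - 1))
      (√(VV d) ^ (s + 1) * (1 + (s : ℝ) / 40) ^ (-(0.249 : ℝ) * d)) := by
  have hd3 : 3 ≤ d := by omega
  have hprob := den_prob hd3
  have hV0 := VV_pos (show 4 ≤ d by omega)
  have hgb : ∀ t, |g t| ≤ 2 := by
    intro t
    have := abs_add_le (g t - 1) 1
    rw [sub_add_cancel, abs_one] at this
    linarith [hgs t]
  have hgi : Integrable g (den d) := Integrable.of_bound hgm.aestronglyMeasurable 2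
    (Filter.Eventually.of_forall fun x => by rw [Real.norm_eq_abs]; exact hgb x)
  set h : ℝ → ℝ := fun t => g t - 1 with hh
  have hhm : Measurable h := hgm.sub_const 1
  have h0 : ∀ j ≤ (d - 3) / 13, ∫ t, h t * (PP d j).eval t ∂(den d) = 0 := by
    intro j hj
    have i1 : Integrable (fun t => (PP d j).eval t) (den d) := integrable_den (PP d j).continuous d
    have i2 : Integrable (fun t => g t * (PP d j).eval t) (den d) :=
      i1.bdd_mul hgm.aestronglyMeasurable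
        (Filter.Eventually.of_forall fun x => by rw [Real.norm_eq_abs]; exact hgb x)
    have e : ∫ t, h t * (PP d j).eval t ∂(den d) =
        ∫ t, g t * (PP d j).eval t ∂(den d) - ∫ t, (PP d j).eval t ∂(den d) := by
      rw [← integral_sub i2 i1]
      congr 1; funext t; simp only [hh]; ring
    rw [e]
    rcases Nat.eq_zero_or_pos j with rfl | hj1
    · rw [PP_zero]
      simp only [Polynomial.eval_one, mul_one]
      rw [hgI]
      simp
    · rw [hg0 j hj1 hj, integral_PP_den hd3 hj1, sub_zero]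
  set M := (((d - 3) / 13 + 1) * s) / 2 with hM
  have hM1 : 2 * M ≤ ((d - 3) / 13 + 1) * s := by rw [hM]; exact Nat.mul_div_le _ _
  have hM2 : ((d - 3) / 13 + 1) * s ≤ 2 * M + 1 := by rw [hM]; omega
  have key : ∀ y : Sph d, ∫ y' : Sph d, |∫ a : Sph d, (g ⟪(a : EE d), (y : EE d)⟫ - 1) *
      (g ⟪(a : EE d), (y' : EE d)⟫ - 1) ∂(sig d)| ^ s ∂(sig d) ≤ VV d ^ s * QQ D M := by
    intro y
    have h1 := phi_pow_le hdD hhm hgs h0 hV0.le hV1 hgv (s := s) (M := M) (by omega) hM1 y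
    refine le_trans (le_of_eq ?_) h1
    congr 1; funext y'
    unfold phi
    congr 2
    congr 1; funext a
    simp only [hh]
    rw [real_inner_comm (a : EE d) (y : EE d), real_inner_comm (a : EE d) (y' : EE d)]
  have bk : Bd fun p : Sph d × Sph d => g ⟪(p.1 : EE d), (p.2 : EE d)⟫ - 1 :=
    ⟨(hgm.comp Pool.Agent.Helper47.KP.continuous_inner2.measurable).sub_const 1, 1,
      fun p => hgs _⟩
  have hNB := star_of_conv (σ := sig d) (k := fun x y : Sph d => g ⟪(x : EE d), (y : EE d)⟫ - 1)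
    bk s key
  refine hNB.mono ?_
  set x : ℝ := (1 + (s : ℝ) / 40) ^ (-(0.249 : ℝ) * d) with hx
  have hx0 : 0 ≤ x := by rw [hx]; positivity
  have h2 := QQ_small hdD hd hs hM2
  have h3 : VV d ^ s * QQ D M ≤ (√(VV d) ^ (s + 1) * x) ^ 2 := by
    have e1 : (√(VV d) ^ (s + 1) * x) ^ 2 = VV d ^ s * (VV d * x ^ 2) := by
      rw [mul_pow, ← pow_mul, mul_comm (s + 1) 2, pow_mul, Real.sq_sqrt hV0.le, pow_succ]
      ring
    rw [e1]
    exact mul_le_mul_of_nonneg_left h2 (pow_nonneg hV0.le s)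
  calc √(VV d ^ s * QQ D M) ≤ √((√(VV d) ^ (s + 1) * x) ^ 2) := Real.sqrt_le_sqrt h3
    _ = √(VV d) ^ (s + 1) * x :=
        Real.sqrt_sq (mul_nonneg (pow_nonneg (Real.sqrt_nonneg _) _) hx0)

/-- the bound of the density tends to `1` exponentially fast -/
lemma G_small {C θ : ℝ} (hC : 0 < C) (hθ0 : 0 < θ) (hθ1 : θ < 1) : ∃ c : ℝ, 0 < c ∧ ∃ d₀ : ℕ,
    ∀ d : ℕ, d₀ ≤ d → C * (2 * (((d - 3) / 13 : ℕ) : ℝ) + 1) * θ ^ (d - 3) ≤ 2 ^ (-c * d) := by
  set w := √θ with hw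
  have hw0 : 0 < w := Real.sqrt_pos.2 hθ0
  have hw1 : w < 1 := by
    rw [hw, Real.sqrt_lt' one_pos]; simpa using hθ1
  have hw2 : w * w = θ := Real.mul_self_sqrt hθ0.le
  refine ⟨-(Real.log w / Real.log 2), ?_, ?_⟩
  · have h1 : Real.log w < 0 := Real.log_neg hw0 hw1
    have h2 : 0 < Real.log 2 := Real.log_pos (by norm_num)
    have := div_neg_of_neg_of_pos h1 h2
    linarith
  · have h1 : ∀ᶠ d : ℕ in Filter.atTop, (3 * C / θ ^ 3) * ((d : ℝ) ^ 1 * w ^ d) ≤ 1 := by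
      have ht := tendsto_pow_const_mul_const_pow_of_abs_lt_one 1 (r := w)
        (by rw [abs_of_pos hw0]; exact hw1)
      have ht2 := ht.const_mul (3 * C / θ ^ 3)
      rw [mul_zero] at ht2
      exact (ht2.eventually (eventually_le_nhds (by norm_num : (0 : ℝ) < 1)))
    obtain ⟨N, hN⟩ := Filter.eventually_atTop.1 h1
    refine ⟨max N 20, fun d hd => ?_⟩
    have k1 := hN d ((le_max_left _ _).trans hd)
    have hd20 : 20 ≤ d := (le_max_right _ _).trans hd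
    have hdpos : (20 : ℝ) ≤ d := by exact_mod_cast hd20
    have hnat : ((((d - 3) / 13 : ℕ) : ℝ)) ≤ (d : ℝ) := by
      exact_mod_cast (Nat.div_le_self _ _).trans (Nat.sub_le _ _)
    have hpow : θ ^ (d - 3) = θ ^ d * (θ ^ 3)⁻¹ := pow_sub₀ θ hθ0.ne' (by omega)
    have e1 : (2 : ℝ) ^ (-(-(Real.log w / Real.log 2)) * (d : ℝ)) = w ^ d := by
      have h2 : Real.log 2 ≠ 0 := (Real.log_pos (by norm_num)).ne'
      rw [Real.rpow_def_of_pos (by norm_num), neg_neg, ← Real.rpow_natCast,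
        Real.rpow_def_of_pos hw0]
      congr 1
      field_simp
    rw [e1, hpow]
    have e2 : θ ^ d = w ^ d * w ^ d := by rw [← mul_pow, hw2]
    have hwd : 0 < w ^ d := pow_pos hw0 d
    have hθ3 : 0 < θ ^ 3 := pow_pos hθ0 3
    calc C * (2 * (((d - 3) / 13 : ℕ) : ℝ) + 1) * (θ ^ d * (θ ^ 3)⁻¹)
        ≤ C * (3 * d) * (θ ^ d * (θ ^ 3)⁻¹) := by
          apply mul_le_mul_of_nonneg_right _ (by positivity)
          apply mul_le_mul_of_nonneg_left _ hC.le
          linarith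
      _ = ((3 * C / θ ^ 3) * ((d : ℝ) ^ 1 * w ^ d)) * w ^ d := by
          rw [e2, pow_one, div_eq_mul_inv]; ring
      _ ≤ 1 * w ^ d := mul_le_mul_of_nonneg_right k1 hwd.le
      _ = w ^ d := one_mul _

/-- The kernel on the sphere: `0 ≤ g ≤ 1 + 2^(-cd)`, `g = 0` for angles below 60 degrees, and the
star kernels have the norms `√v^(s+1) DD d s` for all `s ≥ 1`. -/
theorem sphere_kernel : ∃ c : ℝ, 0 < c ∧ ∃ d₀ : ℕ, ∀ (d : ℕ) [NeZero d], d₀ ≤ d →
    ∃ (g : ℝ → ℝ) (ε : ℝ), Measurable g ∧ (∀ t, 1 / 2 < t → g t = 0) ∧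
      Ker (sig d) (fun x y : Sph d => g ⟪(x : EE d), (y : EE d)⟫) (1 + (2 : ℝ) ^ (-c * d))
        (VV d) ε ∧
      ∀ s : ℕ, 1 ≤ s → NB (pis (sig d) (Fin s)) (sig d)
        (fun a y => ∏ i, (g ⟪(a i : EE d), (y : EE d)⟫ - 1)) (√(VV d) ^ (s + 1) * DD d s) := by
  classical
  -- the parameters
  set A : ℝ := 187 / 50 with hA
  set b : ℝ := 2 * A / (A ^ 2 + 1) with hb
  have hPar : Par A b := ⟨by rw [hA]; norm_num, by rw [hb]; field_simp⟩
  have hb2 : b < 1 / 2 := by rw [hb, hA]; norm_num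
  have hβ : 2 * (1 / 13 : ℝ) < 2 / (A ^ 2 - 1) := by rw [hA]; norm_num
  obtain ⟨C, θ, hC, hθ0, hθ1, hdens⟩ := exists_density3 hPar hb2 (by norm_num) hβ
  obtain ⟨d₁, hd₁⟩ := VV_choose_large
  obtain ⟨d₂, hd₂20, hd₂⟩ := growth hC hθ0 hθ1
  obtain ⟨d₃, hd₃⟩ := VV_le_one
  obtain ⟨c, hc0, d₄, hd₄⟩ := G_small hC hθ0 hθ1
  refine ⟨c, hc0, max (max (max d₁ d₂) (max d₃ d₄)) 500, fun d _ hd => ?_⟩
  have hd' : max (max d₁ d₂) (max d₃ d₄) ≤ d := le_trans (le_max_left _ _) hd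
  have hd500 : 500 ≤ d := le_trans (le_max_right _ _) hd
  have hdd1 : d₁ ≤ d := le_trans (le_trans (le_max_left _ _) (le_max_left _ _)) hd'
  have hdd2 : d₂ ≤ d := le_trans (le_trans (le_max_right _ _) (le_max_left _ _)) hd'
  have hdd3 : d₃ ≤ d := le_trans (le_trans (le_max_left _ _) (le_max_right _ _)) hd'
  have hdd4 : d₄ ≤ d := le_trans (le_trans (le_max_right _ _) (le_max_right _ _)) hd'
  obtain ⟨hr1, -⟩ := hd₂ d hdd2
  have hV0 := VV_pos (show 4 ≤ d by omega)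
  have hV1 := hd₃ d hdd3
  have hch := hd₁ d hdd1
  have hGs := hd₄ d hdd4
  set n := (d - 3) / 13 with hn
  have hn1 : 1 ≤ n := by omega
  have hnβ : (n : ℝ) ≤ 1 / 13 * ((d - 3 : ℕ) : ℝ) := by
    have h1 : 13 * ((d - 3) / 13) ≤ d - 3 := Nat.mul_div_le _ _
    have h2 : (13 : ℝ) * (((d - 3) / 13 : ℕ) : ℝ) ≤ ((d - 3 : ℕ) : ℝ) := by exact_mod_cast h1
    rw [hn]
    linarith
  obtain ⟨g, hgm, hg0, hg1, hgz, hgs, hgI, hgv, hgj, hgn⟩ := hdens d n (by omega) hn1 hnβ hr1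
  set r := C * (2 * (n : ℝ) + 1) * θ ^ (d - 3) with hr
  have hr0 : 0 ≤ r := by positivity
  set v := VV d with hv
  set ch : ℝ := (Nat.choose (n + (d - 3)) n : ℝ) with hchdef
  have hch0 : 0 < ch := by
    rw [hchdef]; exact_mod_cast Nat.choose_pos (by omega)
  set ε := √(v / ch) with hε
  set δ := √(1 / (v * ch)) with hδ
  have hεδ : ε ≤ δ * v := by
    have h1 : δ * v = √(1 / (v * ch)) * √(v ^ 2) := by rw [Real.sqrt_sq hV0.le]
    rw [h1, ← Real.sqrt_mul (by positivity)]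
    apply Real.sqrt_le_sqrt
    apply le_of_eq
    field_simp
  have hδle : δ ≤ (2 : ℝ) ^ (-(0.096 : ℝ) * d) := by
    rw [hδ, Real.sqrt_le_left (by positivity)]
    rw [← Real.rpow_natCast ((2 : ℝ) ^ (-(0.096 : ℝ) * d)) 2, ← Real.rpow_mul (by norm_num)]
    have e1 : -(0.096 : ℝ) * d * ((2 : ℕ) : ℝ) = -((0.192 : ℝ) * d) := by push_cast; ring
    rw [e1, Real.rpow_neg (by norm_num), one_div]
    exact inv_anti₀ (by positivity) hch
  have hgG : ∀ s, |g s| ≤ 1 + r := fun s => by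
    rw [abs_of_nonneg (hg0 s)]; exact hg1 s
  have hG1 : (0 : ℝ) < 2 ^ (-c * d) := Real.rpow_pos_of_pos (by norm_num) _
  have hker : Ker (sig d) (fun x y : Sph d => g ⟪(x : EE d), (y : EE d)⟫)
      (1 + (2 : ℝ) ^ (-c * d)) v ε := by
    refine ⟨hgm.comp Pool.Agent.Helper47.KP.continuous_inner2.measurable, fun x y => ?_,
      fun x y => hg0 _, fun x y => (hg1 _).trans (by linarith), by linarith, fun x y => hgs _,
      fun x => ?_, hV0, hV1,
      Real.sqrt_nonneg _, op_bound (by omega) hgm hgG hgI (Real.sqrt_nonneg _) hgj⟩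
    · show g _ = g _
      rw [real_inner_comm]
    · have h1 := Pool.Agent.Helper47.KP.int_zonal_den (show 3 ≤ d by omega) x
        (f := fun s => (g s - 1) ^ 2) ((hgm.sub_const 1).pow_const 2)
      show ∫ y : Sph d, (g ⟪(x : EE d), (y : EE d)⟫ - 1) ^ 2 ∂(sig d) ≤ v
      rw [h1]
      exact hgv
  refine ⟨g, ε, hgm, hgz, hker, fun s hs => ?_⟩
  -- the first bound
  have hold : NB (pis (sig d) (Fin s)) (sig d)
      (fun a y => ∏ i, (g ⟪(a i : EE d), (y : EE d)⟫ - 1))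
      (√v ^ (s + 1) * (2 : ℝ) ^ (-(0.096 : ℝ) * d)) := by
    obtain ⟨p, rfl⟩ : ∃ p, s = p + 1 := ⟨s - 1, by omega⟩
    have h1 := star_NB hker p (Fin (p + 1)) (Fintype.card_fin _)
    refine h1.mono ?_
    have e1 : √v ^ (p + 1 + 1) = √v ^ p * v := by
      rw [pow_succ, pow_succ, mul_assoc, Real.mul_self_sqrt hV0.le]
    have hp0 : 0 ≤ √v ^ p := pow_nonneg (Real.sqrt_nonneg _) _
    rw [e1]
    calc ε * √v ^ p ≤ (δ * v) * √v ^ p := mul_le_mul_of_nonneg_right hεδ hp0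
      _ = √v ^ p * v * δ := by ring
      _ ≤ _ := mul_le_mul_of_nonneg_left hδle (mul_nonneg hp0 hV0.le)
  by_cases hs10 : s ≤ 10
  · rw [DD_small hs hs10]
    exact hold
  · push Not at hs10
    have hnew := star_new (D := d - 4) (by omega) hd500 hgm hgs hgI hgv hV1 hgn
      (s := s) (by omega)
    have hDD : DD d s = min ((2 : ℝ) ^ (-(0.096 : ℝ) * d))
        ((1 + (s : ℝ) / 40) ^ (-(0.249 : ℝ) * d)) := by
      unfold DD
      rw [if_neg (by omega)]
    rcases min_choice ((2 : ℝ) ^ (-(0.096 : ℝ) * d))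
        ((1 + (s : ℝ) / 40) ^ (-(0.249 : ℝ) * d)) with h | h
    · rw [hDD, h]
      exact hold
    · rw [hDD, h]
      exact hnew

end Pool.Agent.Helper86.LP
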