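import Pool.Agent.Helper47.LB.N1

/-!
The norm of a star from the `L^s` norm of the convolution square of the kernel.
-/

set_option autoImplicit false

open MeasureTheory Finset

namespace Pool.Agent.Helper86.LP

open Pool.Agent.Helper47.KP (Bd pim)
open Pool.Agent.Helper47.LB (NB pis cs Bd_sq_h22)

variable {X : Type} [MeasurableSpace X] {σ : Measure X} [IsProbabilityMeasure σ]

/-- If the convolution square `φ(y, y') = ∫ k(a, y) k(a, y') da` satisfies
`∫ |φ(y, y')|^s dy' ≤ C` for all `y`, then the star kernel with `s` leaves has norm at most `√C`. -/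
theorem star_of_conv {k : X → X → ℝ} (hk : Bd fun p : X × X => k p.1 p.2) (s : ℕ) {C : ℝ}
    (hC : ∀ y, ∫ y', |∫ a, k a y * k a y' ∂σ| ^ s ∂σ ≤ C) :
    NB (pis σ (Fin s)) σ (fun a y => ∏ i, k (a i) y) (√C) := by
  intro u w hu hw
  set φ : X → X → ℝ := fun y y' => ∫ a, k a y * k a y' ∂σ with hφ
  -- boundedness
  have bK : Bd fun p : (Fin s → X) × X => ∏ i, k (p.1 i) p.2 :=
    Bd.prod _ fun i _ => hk.comp (g := fun p : (Fin s → X) × X => (p.1 i, p.2)) (by fun_prop)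
  have bF1 : Bd fun p : (Fin s → X) × X => w p.2 * ∏ i, k (p.1 i) p.2 :=
    (hw.comp measurable_snd).mul bK
  have bF : Bd fun a : Fin s → X => ∫ y, w y * ∏ i, k (a i) y ∂σ := bF1.integral σ
  have bφ : Bd fun p : X × X => φ p.1 p.2 := by
    have : Bd fun q : (X × X) × X => k q.2 q.1.1 * k q.2 q.1.2 :=
      (hk.comp (g := fun q : (X × X) × X => (q.2, q.1.1)) (by fun_prop)).mul
        (hk.comp (g := fun q : (X × X) × X => (q.2, q.1.2)) (by fun_prop))
    exact this.integral σ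
  have bpow : ∀ {Y : Type} [MeasurableSpace Y] {f : Y → ℝ}, Bd f → Bd fun y => |f y| ^ s := by
    intro Y _ f hf
    obtain ⟨B, hB⟩ := hf.bd
    refine ⟨(hf.meas.abs).pow_const s, B ^ s, fun y => ?_⟩
    rw [abs_pow, abs_abs]
    exact pow_le_pow_left₀ (abs_nonneg _) (hB y) s
  have bpow' : ∀ {Y : Type} [MeasurableSpace Y] {f : Y → ℝ}, Bd f → Bd fun y => f y ^ s := by
    intro Y _ f hf
    obtain ⟨B, hB⟩ := hf.bd
    refine ⟨hf.meas.pow_const s, B ^ s, fun y => ?_⟩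
    rw [abs_pow]
    exact pow_le_pow_left₀ (abs_nonneg _) (hB y) s
  -- step 1
  have e1 : ∫ a, ∫ y, u a * w y * ∏ i, k (a i) y ∂σ ∂(pis σ (Fin s)) =
      ∫ a, u a * ∫ y, w y * ∏ i, k (a i) y ∂σ ∂(pis σ (Fin s)) := by
    congr 1; funext a
    rw [← integral_const_mul]
    congr 1; funext y; ring
  rw [e1]
  refine (cs (pis σ (Fin s)) hu bF).trans ?_
  -- step 2
  have e2 : ∫ a, (∫ y, w y * ∏ i, k (a i) y ∂σ) ^ 2 ∂(pis σ (Fin s)) =
      ∫ p : X × X, w p.1 * w p.2 * φ p.1 p.2 ^ s ∂(σ.prod σ) := by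
    have b3 : Bd fun q : (Fin s → X) × (X × X) =>
        (w q.2.1 * ∏ i, k (q.1 i) q.2.1) * (w q.2.2 * ∏ i, k (q.1 i) q.2.2) :=
      (bF1.comp (g := fun q : (Fin s → X) × (X × X) => (q.1, q.2.1)) (by fun_prop)).mul
        (bF1.comp (g := fun q : (Fin s → X) × (X × X) => (q.1, q.2.2)) (by fun_prop))
    have h1 : ∀ a : Fin s → X, (∫ y, w y * ∏ i, k (a i) y ∂σ) ^ 2 =
        ∫ p : X × X, (w p.1 * ∏ i, k (a i) p.1) * (w p.2 * ∏ i, k (a i) p.2) ∂(σ.prod σ) := by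
      intro a
      rw [sq]
      exact (integral_prod_mul (fun y => w y * ∏ i, k (a i) y) fun y => w y * ∏ i, k (a i) y).symm
    simp only [h1]
    rw [integral_integral_swap (b3.integrable _)]
    congr 1; funext p
    have h2 : ∀ a : Fin s → X, (w p.1 * ∏ i, k (a i) p.1) * (w p.2 * ∏ i, k (a i) p.2) =
        w p.1 * w p.2 * ∏ i, (k (a i) p.1 * k (a i) p.2) := by
      intro a
      rw [Finset.prod_mul_distrib]
      ring
    simp only [h2]
    rw [integral_const_mul]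
    congr 1
    have h3 := integral_fintype_prod_eq_prod (𝕜 := ℝ) (μ := fun _ : Fin s => σ)
      (fun (_ : Fin s) (x : X) => k x p.1 * k x p.2)
    refine h3.trans ?_
    rw [Finset.prod_const, Finset.card_univ, Fintype.card_fin]
  -- step 3
  have b4 : Bd fun p : X × X => w p.1 * w p.2 * φ p.1 p.2 ^ s :=
    ((hw.comp measurable_fst).mul (hw.comp measurable_snd)).mul (bpow' bφ)
  have b5 : Bd fun p : X × X => w p.1 ^ 2 * |φ p.1 p.2| ^ s :=
    ((Bd_sq_h22 hw).comp measurable_fst).mul (bpow bφ)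
  have b6 : Bd fun p : X × X => w p.2 ^ 2 * |φ p.1 p.2| ^ s :=
    ((Bd_sq_h22 hw).comp measurable_snd).mul (bpow bφ)
  have hsym : ∀ y y', φ y y' = φ y' y := by
    intro y y'
    simp only [hφ]
    congr 1; funext a; ring
  have e5 : ∫ p : X × X, w p.1 ^ 2 * |φ p.1 p.2| ^ s ∂(σ.prod σ) ≤ C * ∫ y, w y ^ 2 ∂σ := by
    rw [integral_prod _ (b5.integrable _)]
    have b7 : Bd fun y => ∫ y', w y ^ 2 * |φ y y'| ^ s ∂σ := b5.integral σ
    rw [← integral_const_mul]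
    apply integral_mono (b7.integrable _) (((Bd_sq_h22 hw).integrable _).const_mul C)
    intro y
    show ∫ y', w y ^ 2 * |φ y y'| ^ s ∂σ ≤ C * w y ^ 2
    rw [integral_const_mul, mul_comm C]
    exact mul_le_mul_of_nonneg_left (hC y) (sq_nonneg _)
  have e6 : ∫ p : X × X, w p.2 ^ 2 * |φ p.1 p.2| ^ s ∂(σ.prod σ) ≤ C * ∫ y, w y ^ 2 ∂σ := by
    have : ∫ p : X × X, w p.2 ^ 2 * |φ p.1 p.2| ^ s ∂(σ.prod σ) =
        ∫ p : X × X, w p.1 ^ 2 * |φ p.1 p.2| ^ s ∂(σ.prod σ) := by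
      rw [← integral_prod_swap]
      congr 1; funext p
      simp only [Prod.swap, Prod.fst, Prod.snd]
      rw [hsym p.1 p.2]
    rw [this]
    exact e5
  have e7 : ∫ p : X × X, w p.1 * w p.2 * φ p.1 p.2 ^ s ∂(σ.prod σ) ≤ C * ∫ y, w y ^ 2 ∂σ := by
    have h1 : ∫ p : X × X, w p.1 * w p.2 * φ p.1 p.2 ^ s ∂(σ.prod σ) ≤
        ∫ p : X × X, ((1 / 2 : ℝ) * (w p.1 ^ 2 * |φ p.1 p.2| ^ s) +
          (1 / 2 : ℝ) * (w p.2 ^ 2 * |φ p.1 p.2| ^ s)) ∂(σ.prod σ) := by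
      apply integral_mono (b4.integrable _)
      · exact ((b5.integrable _).const_mul _).add ((b6.integrable _).const_mul _)
      · intro p
        show w p.1 * w p.2 * φ p.1 p.2 ^ s ≤ (1 / 2 : ℝ) * (w p.1 ^ 2 * |φ p.1 p.2| ^ s) +
          (1 / 2 : ℝ) * (w p.2 ^ 2 * |φ p.1 p.2| ^ s)
        have h2 : w p.1 * w p.2 * φ p.1 p.2 ^ s ≤ |w p.1 * w p.2| * |φ p.1 p.2| ^ s := by
          refine (le_abs_self _).trans (le_of_eq ?_)
          rw [abs_mul, abs_pow]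
        have h3 : |w p.1 * w p.2| ≤ (1 / 2 : ℝ) * w p.1 ^ 2 + (1 / 2 : ℝ) * w p.2 ^ 2 := by
          rw [abs_le]
          constructor
          · nlinarith [sq_nonneg (w p.1 + w p.2)]
          · nlinarith [sq_nonneg (w p.1 - w p.2)]
        have h4 : 0 ≤ |φ p.1 p.2| ^ s := pow_nonneg (abs_nonneg _) s
        have h5 := mul_le_mul_of_nonneg_right h3 h4
        linarith
    rw [integral_add ((b5.integrable _).const_mul _) ((b6.integrable _).const_mul _),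
      integral_const_mul, integral_const_mul] at h1
    linarith
  rw [e2]
  have hw0 : 0 ≤ ∫ y, w y ^ 2 ∂σ := integral_nonneg fun y => sq_nonneg _
  calc √(∫ y, u y ^ 2 ∂(pis σ (Fin s))) *
        √(∫ p : X × X, w p.1 * w p.2 * φ p.1 p.2 ^ s ∂(σ.prod σ))
      ≤ √(∫ y, u y ^ 2 ∂(pis σ (Fin s))) * √(C * ∫ y, w y ^ 2 ∂σ) :=
        mul_le_mul_of_nonneg_left (Real.sqrt_le_sqrt e7) (Real.sqrt_nonneg _)
    _ = √C * (√(∫ y, u y ^ 2 ∂(pis σ (Fin s))) * √(∫ y, w y ^ 2 ∂σ)) := by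
        rw [Real.sqrt_mul' _ hw0]
        ring

end Pool.Agent.Helper86.LP
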